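import Pool.Agent.Y965.PL.Core

/-! Concentration and averages along `⌊n ^ c⌋`. -/

set_option autoImplicit false

namespace Pool.Agent.Y965.PL

open Finset Filter Topology Pool.Agent.Y965.PS
open Pool.Agent.H499R2.HL (H H_unique)
open Pool.Agent.H499R2.LT (odn)
open Pool.Agent.H499R2.ND (Tn Dn Phi phi_cdf)

theorem MnS.add {s : ℕ → ℕ} {u v : ℕ → ℝ} {d e : ℝ} (hu : MnS s u d) (hv : MnS s v e) :
    MnS s (fun m => u m + v m) (d + e) := by
  unfold MnS at *
  refine (hu.add hv).congr fun N => ?_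
  rw [sum_add_distrib]; ring

theorem MnS.sub {s : ℕ → ℕ} {u v : ℕ → ℝ} {d e : ℝ} (hu : MnS s u d) (hv : MnS s v e) :
    MnS s (fun m => u m - v m) (d - e) := by
  unfold MnS at *
  refine (hu.sub hv).congr fun N => ?_
  rw [sum_sub_distrib]; ring

theorem MnS.mul {s : ℕ → ℕ} {u : ℕ → ℝ} {d : ℝ} (hu : MnS s u d) (a : ℝ) : MnS s (fun m => a * u m) (a * d) := by
  unfold MnS at *
  refine (hu.const_mul a).congr fun N => ?_
  rw [← mul_sum]; ring

theorem MnS_const (s : ℕ → ℕ) (a : ℝ) : MnS s (fun _ => a) a := by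
  unfold MnS
  refine tendsto_const_nhds.congr' ?_
  filter_upwards [eventually_ge_atTop 1] with N hN
  have : (N : ℝ) ≠ 0 := by positivity
  rw [sum_const, Nat.card_Icc, Nat.add_sub_cancel, nsmul_eq_mul]
  field_simp

/-- the laws along a sequence -/
structure Law (s : ℕ → ℕ) (E : ℕ → Prop) (val : ℕ → ℕ → ℝ) (A b δ e : ℝ) : Prop where
  all : MnS s (ind E) e
  fin : MnS s (ind (fun n => E n ∧ ∃ k, H k n)) δ
  law : ∀ x, MnS s (ind (fun n => E n ∧ Lv val (fun _ _ => True) (th A b x) n)) (δ * Phi x)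

/-- not concentrated -/
def Bad (val : ℕ → ℕ → ℝ) (A κ : ℝ) (n : ℕ) : Prop :=
  ∃ k, H k n ∧ κ * Real.log n < |val k (odn k n) - A * Real.log n|

theorem Phi_lim (δ : ℝ) {ε : ℝ} (hε : 0 < ε) : ∃ x y : ℝ, δ * Phi x ≤ ε ∧ δ - ε ≤ δ * Phi y := by
  have h1 : Tendsto Phi atBot (𝓝 0) := by
    have := ProbabilityTheory.tendsto_cdf_atBot (ProbabilityTheory.gaussianReal 0 1)
    exact this.congr fun x => (phi_cdf x).symm
  have h2 : Tendsto Phi atTop (𝓝 1) := by
    have := ProbabilityTheory.tendsto_cdf_atTop (ProbabilityTheory.gaussianReal 0 1)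
    exact this.congr fun x => (phi_cdf x).symm
  have h3 := h1.const_mul δ
  have h4 := h2.const_mul δ
  rw [mul_zero] at h3
  rw [mul_one] at h4
  obtain ⟨x, hx⟩ := (h3.eventually (gt_mem_nhds hε)).exists
  obtain ⟨y, hy⟩ := (h4.eventually (lt_mem_nhds (show δ - ε < δ by linarith))).exists
  exact ⟨x, y, hx.le, hy.le⟩

theorem th_lin (A : ℝ) {b κ : ℝ} (hb : 0 < b) (hκ : 0 < κ) (x : ℝ) : ∀ᶠ n : ℕ in atTop,
    (A - κ) * Real.log n ≤ th A b x n ∧ th A b x n ≤ (A + κ) * Real.log n := by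
  filter_upwards [tsqrt.eventually_ge_atTop (|x| * b / κ)] with n h1
  rw [div_le_iff₀ hκ] at h1
  have h0 : 0 ≤ Real.log (n : ℝ) := Real.log_natCast_nonneg n
  have hs : √ (Real.log n) * √ (Real.log n) = Real.log n := Real.mul_self_sqrt h0
  have hs0 : 0 ≤ √ (Real.log n) := Real.sqrt_nonneg _
  have h2 : |x| * b * √ (Real.log n) ≤ κ * Real.log n := by
    calc |x| * b * √ (Real.log n) ≤ (√ (Real.log n) * κ) * √ (Real.log n) := mul_le_mul_of_nonneg_right h1 hs0
      _ = κ * (√ (Real.log n) * √ (Real.log n)) := by ring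
      _ = _ := by rw [hs]
  have h3 : |x * (b * √ (Real.log n))| ≤ κ * Real.log n := by
    rw [abs_mul, abs_of_nonneg (by positivity : 0 ≤ b * √ (Real.log n))]
    linarith
  rw [abs_le] at h3
  unfold th
  constructor <;> nlinarith

theorem sum_few (s : ℕ → ℕ) (hs : ∀ n, n ≤ s n) (m0 : ℕ) (X : ℕ) {B : ℝ} (hB : 0 ≤ B) {w : ℕ → ℝ}
    (hw : ∀ m, w m ≤ B) {v : ℕ → ℝ} (hv : ∀ m, m0 ≤ m → w m ≤ v m) (hv0 : ∀ m, 0 ≤ v m) :
    ∑ n ∈ Icc 1 X, w (s n) ≤ ∑ n ∈ Icc 1 X, v (s n) + B * m0 := by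
  have h1 : ∀ n ∈ Icc 1 X, w (s n) ≤ v (s n) + (if n ∈ range m0 then B else 0) := by
    intro n _
    split_ifs with h
    · have := hw (s n); have := hv0 (s n); linarith
    · rw [mem_range, not_lt] at h
      rw [add_zero]
      exact hv _ (h.trans (hs n))
  refine (sum_le_sum h1).trans ?_
  rw [sum_add_distrib]
  have h2 : ∑ n ∈ Icc 1 X, (if n ∈ range m0 then B else 0) ≤ B * m0 := by
    rw [← sum_filter, sum_const, nsmul_eq_mul, mul_comm]
    apply mul_le_mul_of_nonneg_left _ hB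
    have h3 : ((Icc 1 X).filter (fun n => n ∈ range m0)).card ≤ (range m0).card := by
      apply card_le_card
      intro n hn
      exact (mem_filter.1 hn).2
    rw [card_range] at h3
    exact_mod_cast h3
  linarith

theorem bad_zero {s : ℕ → ℕ} (hs : ∀ n, n ≤ s n) {E : ℕ → Prop} {val : ℕ → ℕ → ℝ} {A b δ e : ℝ} (hb : 0 < b)
    (hL : Law s E val A b δ e) {κ : ℝ} (hκ : 0 < κ) : MnS s (ind (fun n => E n ∧ Bad val A κ n)) 0 := by
  apply MnS_of
  intro ε hε _
  obtain ⟨x, y, hx, hy⟩ := Phi_lim δ (show 0 < ε / 8 by positivity)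
  obtain ⟨m0, hm0⟩ := ((th_lin A hb hκ x).and (th_lin A hb hκ y)).exists_forall_of_atTop
  have hM := ((hL.law x).add (hL.fin.sub (hL.law y))).ev (show 0 < ε / 8 by positivity)
  filter_upwards [hM, tendsto_natCast_atTop_atTop.eventually_ge_atTop ((m0 : ℝ) / (ε / 8))] with X h1 h2
  rw [div_le_iff₀ (by positivity)] at h2
  have hX0 : (0 : ℝ) ≤ X := Nat.cast_nonneg _
  have hsub : ∀ m, ind (fun n => E n ∧ Lv val (fun _ _ => True) (th A b y) n) m ≤ ind (fun n => E n ∧ ∃ k, H k n) m :=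
    fun m => ind_mono fun ⟨g0, k, g1, _⟩ => ⟨g0, k, g1⟩
  have h3 := sum_few s hs m0 X zero_le_one (w := ind (fun n => E n ∧ Bad val A κ n)) (ind_le_one _)
    (v := fun m => ind (fun n => E n ∧ Lv val (fun _ _ => True) (th A b x) n) m +
      (ind (fun n => E n ∧ ∃ k, H k n) m - ind (fun n => E n ∧ Lv val (fun _ _ => True) (th A b y) n) m)) ?_ ?_
  · have h4 : 0 ≤ ∑ n ∈ Icc 1 X, ind (fun n => E n ∧ Bad val A κ n) (s n) := sum_nonneg fun _ _ => ind_nonneg _ _
    have h5 := (abs_le.1 h1).2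
    rw [abs_le]
    constructor <;> nlinarith
  · intro m hm
    obtain ⟨c1, c2⟩ := hm0 m hm
    by_cases hB : E m ∧ Bad val A κ m
    · rw [ind_pos (P := fun n => E n ∧ Bad val A κ n) hB]
      obtain ⟨hE, k, hk, hkb⟩ := hB
      have hfin : ind (fun n => E n ∧ ∃ k, H k n) m = 1 := ind_pos ⟨hE, k, hk⟩
      rcases lt_abs.1 hkb with h6 | h6
      · have h7 : ind (fun n => E n ∧ Lv val (fun _ _ => True) (th A b y) n) m = 0 := by
          apply ind_neg
          rintro ⟨_, k', g1, g2, _⟩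
          have := H_unique g1 hk
          subst this
          linarith [c2.2]
        have h8 := ind_nonneg (fun n => E n ∧ Lv val (fun _ _ => True) (th A b x) n) m
        linarith
      · have h7 : ind (fun n => E n ∧ Lv val (fun _ _ => True) (th A b x) n) m = 1 := by
          apply ind_pos
          exact ⟨hE, k, hk, by linarith [c1.1], trivial⟩
        have h8 := hsub m
        linarith
    · rw [ind_neg (P := fun n => E n ∧ Bad val A κ n) hB]
      have h8 := ind_nonneg (fun n => E n ∧ Lv val (fun _ _ => True) (th A b x) n) m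
      have h9 := hsub m
      linarith
  · intro m
    have h8 := ind_nonneg (fun n => E n ∧ Lv val (fun _ _ => True) (th A b x) n) m
    have h9 := hsub m
    linarith

theorem le_ps {c : ℝ} (hc : 1 ≤ c) (n : ℕ) : n ≤ ps c n := by
  unfold ps
  apply Nat.le_floor
  rcases Nat.eq_zero_or_pos n with h | h
  · subst h; rw [Nat.cast_zero]; exact Real.rpow_nonneg le_rfl c
  · have h1 : (1 : ℝ) ≤ n := by exact_mod_cast h
    calc (n : ℝ) = (n : ℝ) ^ (1 : ℝ) := (Real.rpow_one _).symm
      _ ≤ (n : ℝ) ^ c := Real.rpow_le_rpow_of_exponent_le h1 hc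

/-- the logarithms of the terms -/
theorem log_ps {c η : ℝ} (hc : 1 < c) (hη : 0 < η) {X n : ℕ} (hn : 1 ≤ n) (hX : n ≤ X) (h : η * X ≤ n) :
    |Real.log (ps c n) - c * Real.log X| ≤ c * |Real.log η| + Real.log 2 := by
  have hn1 : (1 : ℝ) ≤ n := by exact_mod_cast hn
  have hn0 : (0 : ℝ) < n := by linarith
  have hX0 : (0 : ℝ) < X := by exact_mod_cast (by omega : 0 < X)
  have hp1 : (1 : ℝ) ≤ (n : ℝ) ^ c := Real.one_le_rpow hn1 (by linarith)
  have h1 : (ps c n : ℝ) ≤ (n : ℝ) ^ c := Nat.floor_le (by positivity)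
  have h2 : (n : ℝ) ^ c / 2 ≤ ps c n := by
    have h3 : (n : ℝ) ^ c < ps c n + 1 := Nat.lt_floor_add_one _
    have h4 : (1 : ℝ) ≤ ps c n := by
      have := le_ps hc.le n
      exact_mod_cast (by omega : 1 ≤ ps c n)
    linarith
  have hps : (0 : ℝ) < ps c n := lt_of_lt_of_le (by positivity) h2
  have h3 : Real.log (ps c n) ≤ c * Real.log n := by
    rw [← Real.log_rpow hn0]; exact Real.log_le_log hps h1
  have h4 : c * Real.log n - Real.log 2 ≤ Real.log (ps c n) := by
    rw [← Real.log_rpow hn0, ← Real.log_div (by positivity) (by norm_num)]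
    exact Real.log_le_log (by positivity) h2
  have h5 : Real.log n ≤ Real.log X := Real.log_le_log hn0 (by exact_mod_cast hX)
  have h6 : Real.log X ≤ Real.log n + |Real.log η| := by
    have h7 := Real.log_le_log (by positivity) h
    rw [Real.log_mul hη.ne' hX0.ne'] at h7
    have := neg_abs_le (Real.log η)
    linarith
  have hl2 : 0 < Real.log 2 := Real.log_pos (by norm_num)
  have h7 : 0 ≤ c * |Real.log η| := by have := abs_nonneg (Real.log η); nlinarith
  rw [abs_le]
  constructor <;> nlinarith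

/-- `f t n` is the value of `val` for `n`, truncated at `t` -/
def IsTr (val : ℕ → ℕ → ℝ) (f : ℝ → ℕ → ℝ) : Prop := (∀ t n k, H k n → f t n = min (val k (odn k n)) t) ∧
  ∀ t n, (¬ ∃ k, H k n) → f t n = t

open Classical in
/-- TRUNCATED AVERAGES -/
theorem ps_avg {c : ℝ} (hc : 1 < c) {E : ℕ → Prop} {val : ℕ → ℕ → ℝ} (hv : ∀ k o, 0 ≤ val k o) {A b δ e : ℝ}
    (hA : 0 < A) (hb : 0 < b) (hL : Law (ps c) E val A b δ e) {f : ℝ → ℕ → ℝ} (hf : IsTr val f) {Λ : ℝ}
    (hΛ : A * c < Λ) :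
    Tendsto (fun X : ℕ => (∑ n ∈ Icc 1 X, (if E (ps c n) then f (Λ * Real.log X) (ps c n) else 0)) / (X * Real.log X))
      atTop (𝓝 (δ * (A * c) + (e - δ) * Λ)) := by
  have hc0 : 0 < c := by linarith
  have hAc : 0 < A * c := by positivity
  have hΛ0 : 0 < Λ := by linarith
  rw [Metric.tendsto_atTop]
  intro ε hε
  -- parameters
  set κ' : ℝ := min (ε / 8) ((Λ - A * c) / 2) with hκ'
  have hκ'0 : 0 < κ' := lt_min (by positivity) (by linarith)
  have hκ'1 : κ' ≤ ε / 8 := min_le_left _ _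
  have hκ'2 : κ' ≤ (Λ - A * c) / 2 := min_le_right _ _
  set κ : ℝ := κ' / (4 * c) with hκ
  have hκ0 : 0 < κ := by positivity
  set η : ℝ := min 1 (ε / (8 * Λ)) with hη
  have hη0 : 0 < η := lt_min one_pos (by positivity)
  have hη1 : η ≤ 1 := min_le_left _ _
  have hη2 : η * Λ ≤ ε / 8 := by
    have h1 : η ≤ ε / (8 * Λ) := min_le_right _ _
    calc η * Λ ≤ ε / (8 * Λ) * Λ := mul_le_mul_of_nonneg_right h1 hΛ0.le
      _ = ε / 8 := by field_simp
  set D : ℝ := c * |Real.log η| + Real.log 2 with hD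
  have hl2 : 0 < Real.log 2 := Real.log_pos (by norm_num)
  have hD0 : 0 < D := by have := abs_nonneg (Real.log η); positivity
  set u : ℕ → ℝ := fun m => A * c * ind (fun n => E n ∧ ∃ k, H k n) m + Λ * (ind E m - ind (fun n => E n ∧ ∃ k, H k n) m) with hu
  have hMu : MnS (ps c) u (A * c * δ + Λ * (e - δ)) := (hL.fin.mul _).add ((hL.all.sub hL.fin).mul _)
  have hMb := bad_zero (fun n => le_ps hc.le n) hb hL hκ0
  obtain ⟨N, hN⟩ := ((hMu.ev (show 0 < ε / 8 by positivity)).and ((hMb.ev (show 0 < ε / (8 * Λ) by positivity)).and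
    ((tlog.eventually_ge_atTop (D / c)).and ((tlog.eventually_ge_atTop ((A + κ) * D * 4 / κ')).and
    ((tlog.eventually_ge_atTop 1).and (eventually_ge_atTop 1)))))).exists_forall_of_atTop
  refine ⟨N, fun X hX => ?_⟩
  obtain ⟨g1, g2, g3, g4, g5, g6⟩ := hN X hX
  set L := Real.log (X : ℝ) with hLdef
  have hX0 : (0 : ℝ) < X := by exact_mod_cast g6
  have hL0 : 0 < L := by linarith
  rw [div_le_iff₀ hκ'0] at g4
  set w : ℕ → ℝ := fun m => (if E m then f (Λ * L) m else 0) / L with hw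
  have hf0 : ∀ m, 0 ≤ f (Λ * L) m ∧ f (Λ * L) m ≤ Λ * L := by
    intro m
    by_cases h : ∃ k, H k m
    · obtain ⟨k, hk⟩ := h
      rw [hf.1 _ _ k hk]
      exact ⟨le_min (hv _ _) (by positivity), min_le_right _ _⟩
    · rw [hf.2 _ _ h]
      exact ⟨by positivity, le_rfl⟩
  have hfsub : ∀ m, ind (fun n => E n ∧ ∃ k, H k n) m ≤ ind E m := fun m => ind_mono fun h => h.1
  have hu0 : ∀ m, 0 ≤ u m ∧ u m ≤ Λ := by
    intro m
    have h1 := ind_nonneg (fun n => E n ∧ ∃ k, H k n) m
    have h2 := hfsub m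
    have h3 := ind_le_one E m
    rw [hu]
    dsimp only
    constructor <;> nlinarith
  have hw0 : ∀ m, 0 ≤ w m ∧ w m ≤ Λ := by
    intro m
    rw [hw]
    dsimp only
    obtain ⟨h1, h2⟩ := hf0 m
    split_ifs
    · exact ⟨by positivity, by rw [div_le_iff₀ hL0]; exact h2⟩
    · rw [zero_div]; exact ⟨le_rfl, hΛ0.le⟩
  -- pointwise
  have key : ∀ n ∈ Icc 1 X, |w (ps c n) - u (ps c n)| ≤ κ' + Λ * ind (fun n => E n ∧ Bad val A κ n) (ps c n)
      + (if (n : ℝ) < η * X then Λ else 0) := by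
    intro n hn
    rw [mem_Icc] at hn
    have hwu : |w (ps c n) - u (ps c n)| ≤ Λ := by
      have h1 := hw0 (ps c n)
      have h2 := hu0 (ps c n)
      rw [abs_le]; constructor <;> linarith
    have hin := ind_nonneg (fun n => E n ∧ Bad val A κ n) (ps c n)
    by_cases hs : (n : ℝ) < η * X
    · rw [if_pos hs]
      have : 0 ≤ Λ * ind (fun n => E n ∧ Bad val A κ n) (ps c n) := by positivity
      linarith
    · rw [if_neg hs, add_zero]
      push Not at hs
      by_cases hB : E (ps c n) ∧ Bad val A κ (ps c n)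
      · rw [ind_pos (P := fun n => E n ∧ Bad val A κ n) hB]
        linarith
      · rw [ind_neg (P := fun n => E n ∧ Bad val A κ n) hB, mul_zero, add_zero]
        by_cases hE : E (ps c n)
        · by_cases hfin : ∃ k, H k (ps c n)
          · obtain ⟨k, hk⟩ := hfin
            have e1 : ind (fun n => E n ∧ ∃ k, H k n) (ps c n) = 1 := ind_pos ⟨hE, k, hk⟩
            have e2 : ind E (ps c n) = 1 := ind_pos hE
            have h1 : |val k (odn k (ps c n)) - A * Real.log (ps c n)| ≤ κ * Real.log (ps c n) := by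
              by_contra hcon
              exact hB ⟨hE, k, hk, not_le.1 hcon⟩
            have h2 := log_ps hc hη0 hn.1 hn.2 hs
            rw [← hLdef, ← hD] at h2
            rw [abs_le] at h1 h2
            have h3 : |val k (odn k (ps c n)) - A * c * L| ≤ κ' * L := by
              have h4 : (A + κ) * D ≤ κ' * L / 4 := by linarith
              have h5 : κ * (c * L) = κ' * L / 4 := by rw [hκ]; field_simp
              rw [abs_le]
              constructor
              · nlinarith [h1.1, h2.1, h2.2, mul_pos hκ'0 hL0]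
              · nlinarith [h1.2, h2.1, h2.2, mul_pos hκ'0 hL0]
            have h4 : f (Λ * L) (ps c n) = val k (odn k (ps c n)) := by
              rw [hf.1 _ _ k hk]
              apply min_eq_left
              have := (abs_le.1 h3).2
              nlinarith
            rw [hw, hu]
            dsimp only
            rw [if_pos hE, e1, e2, h4]
            have e3 : val k (odn k (ps c n)) / L - (A * c * 1 + Λ * (1 - 1)) = (val k (odn k (ps c n)) - A * c * L) / L := by
              field_simp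
              ring
            rw [e3, abs_div, abs_of_pos hL0, div_le_iff₀ hL0]
            exact h3
          · have e1 : ind (fun n => E n ∧ ∃ k, H k n) (ps c n) = 0 := ind_neg fun h => hfin h.2
            have e2 : ind E (ps c n) = 1 := ind_pos hE
            rw [hw, hu]
            dsimp only
            rw [if_pos hE, e1, e2, hf.2 _ _ hfin]
            have e3 : Λ * L / L - (A * c * 0 + Λ * (1 - 0)) = 0 := by field_simp; ring
            rw [e3, abs_zero]; exact hκ'0.le
        · have e1 : ind (fun n => E n ∧ ∃ k, H k n) (ps c n) = 0 := ind_neg fun h => hE h.1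
          have e2 : ind E (ps c n) = 0 := ind_neg hE
          rw [hw, hu]
          dsimp only
          rw [if_neg hE, e1, e2]
          simp
          exact hκ'0.le
  -- the sum
  have hsum : |∑ n ∈ Icc 1 X, w (ps c n) - ∑ n ∈ Icc 1 X, u (ps c n)| ≤ κ' * X +
      Λ * ∑ n ∈ Icc 1 X, ind (fun n => E n ∧ Bad val A κ n) (ps c n) + Λ * (η * X) := by
    rw [← sum_sub_distrib]
    refine (abs_sum_le_sum_abs _ _).trans ((sum_le_sum key).trans ?_)
    rw [sum_add_distrib, sum_add_distrib, ← mul_sum, sum_const, Nat.card_Icc, Nat.add_sub_cancel, nsmul_eq_mul]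
    have h1 : ∑ n ∈ Icc 1 X, (if (n : ℝ) < η * X then Λ else 0) ≤ Λ * (η * X) := by
      rw [← sum_filter, sum_const, nsmul_eq_mul, mul_comm]
      apply mul_le_mul_of_nonneg_left _ hΛ0.le
      have h2 : (Icc 1 X).filter (fun n : ℕ => (n : ℝ) < η * X) ⊆ Icc 1 ⌊η * X⌋₊ := by
        intro n hn
        rw [mem_filter, mem_Icc] at hn
        rw [mem_Icc]
        exact ⟨hn.1.1, Nat.le_floor hn.2.le⟩
      have h3 := card_le_card h2
      rw [Nat.card_Icc, Nat.add_sub_cancel] at h3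
      have h4 : (((Icc 1 X).filter (fun n : ℕ => (n : ℝ) < η * X)).card : ℝ) ≤ ⌊η * X⌋₊ := by exact_mod_cast h3
      exact h4.trans (Nat.floor_le (by positivity))
    linarith
  have hbad : Λ * ∑ n ∈ Icc 1 X, ind (fun n => E n ∧ Bad val A κ n) (ps c n) ≤ ε / 8 * X := by
    have h1 := (abs_le.1 g2).2
    have h2 : Λ * ∑ n ∈ Icc 1 X, ind (fun n => E n ∧ Bad val A κ n) (ps c n) ≤ Λ * (ε / (8 * Λ) * X) :=
      mul_le_mul_of_nonneg_left (by linarith) hΛ0.le
    have e3 : Λ * (ε / (8 * Λ) * X) = ε / 8 * X := by field_simp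
    linarith
  have e4 : (∑ n ∈ Icc 1 X, (if E (ps c n) then f (Λ * L) (ps c n) else 0)) / (X * L) = (∑ n ∈ Icc 1 X, w (ps c n)) / X := by
    rw [hw]
    dsimp only
    rw [← sum_div]
    field_simp
  rw [Real.dist_eq, e4]
  have e5 : (∑ n ∈ Icc 1 X, w (ps c n)) / X - (δ * (A * c) + (e - δ) * Λ)
      = (∑ n ∈ Icc 1 X, w (ps c n) - (A * c * δ + Λ * (e - δ)) * X) / X := by
    field_simp
  rw [e5, abs_div, abs_of_pos hX0, div_lt_iff₀ hX0]
  have h7 : |∑ n ∈ Icc 1 X, w (ps c n) - (A * c * δ + Λ * (e - δ)) * X| ≤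
      |∑ n ∈ Icc 1 X, w (ps c n) - ∑ n ∈ Icc 1 X, u (ps c n)| +
      |∑ n ∈ Icc 1 X, u (ps c n) - (A * c * δ + Λ * (e - δ)) * X| := by
    have e6 : ∑ n ∈ Icc 1 X, w (ps c n) - (A * c * δ + Λ * (e - δ)) * X =
      (∑ n ∈ Icc 1 X, w (ps c n) - ∑ n ∈ Icc 1 X, u (ps c n)) +
      (∑ n ∈ Icc 1 X, u (ps c n) - (A * c * δ + Λ * (e - δ)) * X) := by ring
    rw [e6]; exact abs_add_le _ _
  have h8 : κ' * X ≤ ε / 8 * X := mul_le_mul_of_nonneg_right hκ'1 hX0.le
  have h9 : Λ * (η * X) ≤ ε / 8 * X := by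
    have := mul_le_mul_of_nonneg_right hη2 hX0.le
    linarith
  nlinarith

/-- FUNCTIONS OF THE SCALED VALUE -/
theorem ps_cont {s : ℕ → ℕ} (hs : ∀ n, n ≤ s n) {E : ℕ → Prop} {val : ℕ → ℕ → ℝ} {A b δ e : ℝ}
    (hb : 0 < b) (hL : Law s E val A b δ e) {h : ℝ → ℝ} (hh : ContinuousAt h A) {h1 B : ℝ} (hB : ∀ x, |h x| ≤ B)
    (hB1 : |h1| ≤ B) {w : ℕ → ℝ} (hw1 : ∀ m k, 2 ≤ m → E m → H k m → w m = h (val k (odn k m) / Real.log m))
    (hw2 : ∀ m, 2 ≤ m → E m → (¬ ∃ k, H k m) → w m = h1) (hw3 : ∀ m, |w m| ≤ B) (hw4 : ∀ m, 2 ≤ m → ¬ E m → w m = 0) :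
    MnS s w (δ * h A + (e - δ) * h1) := by
  have hB0 : 0 ≤ B := (abs_nonneg _).trans hB1
  set u : ℕ → ℝ := fun m => h A * ind (fun n => E n ∧ ∃ k, H k n) m + h1 * (ind E m - ind (fun n => E n ∧ ∃ k, H k n) m) with hu
  have hMu : MnS s u (h A * δ + h1 * (e - δ)) := (hL.fin.mul _).add ((hL.all.sub hL.fin).mul _)
  have hu0 : ∀ m, |u m| ≤ B := by
    intro m
    have hsub : ind (fun n => E n ∧ ∃ k, H k n) m ≤ ind E m := ind_mono fun h => h.1
    have i0 := ind_nonneg (fun n => E n ∧ ∃ k, H k n) m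
    have i1 := ind_le_one E m
    have a1 := abs_le.1 (hB A)
    have a2 := abs_le.1 hB1
    rw [hu]
    dsimp only
    rw [abs_le]
    constructor <;> nlinarith
  apply MnS_of
  intro ε hε _
  obtain ⟨r, hr, hr'⟩ := Metric.continuousAt_iff.1 hh (ε / 4) (by positivity)
  set κ : ℝ := r / 2 with hκ
  have hκ0 : 0 < κ := by positivity
  have hMb := bad_zero hs hb hL hκ0
  filter_upwards [hMu.ev (show 0 < ε / 8 by positivity), hMb.ev (show 0 < ε / (8 * (2 * B + 1)) by positivity),
    tendsto_natCast_atTop_atTop.eventually_ge_atTop ((4 * B * 2) / (ε / 8))] with X g1 g2 g3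
  rw [div_le_iff₀ (by positivity)] at g3
  have hX0 : (0 : ℝ) ≤ X := Nat.cast_nonneg _
  have key := sum_few s hs 2 X (B := 2 * B) (by positivity) (w := fun m => |w m - u m|)
    (fun m => (abs_sub _ _).trans (by linarith [hw3 m, hu0 m]))
    (v := fun m => ε / 4 + (2 * B) * ind (fun n => E n ∧ Bad val A κ n) m) ?_ ?_
  · rw [sum_add_distrib, sum_const, Nat.card_Icc, Nat.add_sub_cancel, nsmul_eq_mul, ← mul_sum] at key
    have h7 : |∑ n ∈ Icc 1 X, w (s n) - (δ * h A + (e - δ) * h1) * X| ≤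
        ∑ n ∈ Icc 1 X, |w (s n) - u (s n)| + |∑ n ∈ Icc 1 X, u (s n) - (h A * δ + h1 * (e - δ)) * X| := by
      have e6 : ∑ n ∈ Icc 1 X, w (s n) - (δ * h A + (e - δ) * h1) * X =
        (∑ n ∈ Icc 1 X, (w (s n) - u (s n))) +
        (∑ n ∈ Icc 1 X, u (s n) - (h A * δ + h1 * (e - δ)) * X) := by
        rw [sum_sub_distrib]; ring
      rw [e6]
      exact (abs_add_le _ _).trans (add_le_add (abs_sum_le_sum_abs _ _) le_rfl)
    have h8 := (abs_le.1 g2).2
    have h9 : (2 * B) * ∑ n ∈ Icc 1 X, ind (fun n => E n ∧ Bad val A κ n) (s n) ≤ ε / 8 * X := by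
      have k1 : (2 * B) * ∑ n ∈ Icc 1 X, ind (fun n => E n ∧ Bad val A κ n) (s n) ≤
          (2 * B + 1) * (ε / (8 * (2 * B + 1)) * X) := by
        have k2 : 0 ≤ ∑ n ∈ Icc 1 X, ind (fun n => E n ∧ Bad val A κ n) (s n) := sum_nonneg fun _ _ => ind_nonneg _ _
        nlinarith
      have e3 : (2 * B + 1) * (ε / (8 * (2 * B + 1)) * X) = ε / 8 * X := by field_simp
      linarith
    push_cast at key
    linarith
  · intro m hm
    have hin := ind_nonneg (fun n => E n ∧ Bad val A κ n) m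
    by_cases hBd : E m ∧ Bad val A κ m
    · rw [ind_pos (P := fun n => E n ∧ Bad val A κ n) hBd]
      have := (abs_sub (w m) (u m)).trans (by linarith [hw3 m, hu0 m] : |w m| + |u m| ≤ 2 * B)
      linarith
    · rw [ind_neg (P := fun n => E n ∧ Bad val A κ n) hBd, mul_zero, add_zero]
      by_cases hE : E m
      · by_cases hfin : ∃ k, H k m
        · obtain ⟨k, hk⟩ := hfin
          have e1 : ind (fun n => E n ∧ ∃ k, H k n) m = 1 := ind_pos ⟨hE, k, hk⟩
          have e2 : ind E m = 1 := ind_pos hE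
          have k1 : |val k (odn k m) - A * Real.log m| ≤ κ * Real.log m := by
            by_contra hcon
            exact hBd ⟨hE, k, hk, not_le.1 hcon⟩
          have hl : 0 < Real.log (m : ℝ) := Real.log_pos (by exact_mod_cast (by omega : 1 < m))
          have k2 : |val k (odn k m) / Real.log m - A| ≤ κ := by
            have e3 : val k (odn k m) / Real.log m - A = (val k (odn k m) - A * Real.log m) / Real.log m := by
              field_simp
            rw [e3, abs_div, abs_of_pos hl, div_le_iff₀ hl]; exact k1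
          have k3 := hr' (x := val k (odn k m) / Real.log m) (by rw [Real.dist_eq]; linarith)
          rw [Real.dist_eq] at k3
          rw [hw1 m k hm hE hk, hu]
          dsimp only
          rw [e1, e2, sub_self, mul_zero, add_zero, mul_one]
          exact k3.le
        · have e1 : ind (fun n => E n ∧ ∃ k, H k n) m = 0 := ind_neg fun h => hfin h.2
          have e2 : ind E m = 1 := ind_pos hE
          rw [hw2 m hm hE hfin, hu]
          dsimp only
          rw [e1, e2, mul_zero, sub_zero, mul_one, zero_add, sub_self, abs_zero]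
          positivity
      · have e1 : ind (fun n => E n ∧ ∃ k, H k n) m = 0 := ind_neg fun h => hE h.1
        have e2 : ind E m = 0 := ind_neg hE
        rw [hw4 m hm hE, hu]
        dsimp only
        rw [e1, e2, mul_zero, sub_zero, mul_zero, zero_add, sub_self, abs_zero]
        positivity
  · intro m
    have hin := ind_nonneg (fun n => E n ∧ Bad val A κ n) m
    positivity

end Pool.Agent.Y965.PL
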