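import Pool.Agent.Y965.PL.Inp

/-! The total stopping time of the Collatz function along `⌊n ^ c⌋`. -/

set_option autoImplicit false

namespace Pool.Agent.Y965.PL

open Finset Filter Topology Pool.Agent.Y965.PS
open Pool.Agent.H499R2.HL (H H_unique)
open Pool.Agent.H499R2.LT (odn ocn law_oneC Dn_iff)
open Pool.Agent.H499R2.ND (Tn Dn Phi phi_cdf Phi_continuous CC)

/-- `l` is the total stopping time -/
def Ts (n l : ℕ) : Prop := CC^[l] n = 1 ∧ ∀ j < l, CC^[j] n ≠ 1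

theorem odn_succ' (k n : ℕ) : odn (k + 1) n = n % 2 + odn k (Tn n) := by
  rw [add_comm k 1, odn_split]
  congr 1
  have h := odn_step 0 n
  rw [zero_add, odn_zero, zero_add] at h
  rw [h]
  rcases Nat.mod_two_eq_zero_or_one n with hp | hp
  · rw [if_pos (show Tn^[0] n % 2 = 0 from hp), hp]
  · rw [if_neg (show ¬ Tn^[0] n % 2 = 0 from fun h0 => by
      have : n % 2 = 0 := h0
      omega), hp]

theorem ocn_succ' (k n : ℕ) : ocn (k + 1) n = n % 2 + ocn k (CC n) := by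
  unfold ocn
  rw [Finset.range_eq_Ico, Finset.range_eq_Ico, card_filter, card_filter, Finset.sum_eq_sum_Ico_succ_bot (by omega)]
  rw [Finset.sum_Ico_eq_sum_range, ← Finset.range_eq_Ico]
  congr 1
  · rcases Nat.mod_two_eq_zero_or_one n with h | h
    · rw [if_neg (show ¬ CC^[0] n % 2 = 1 from fun h' => by
        rw [Function.iterate_zero, id_eq] at h'; omega)]; omega
    · rw [if_pos (show CC^[0] n % 2 = 1 from h)]; omega
  · simp only [Nat.add_sub_cancel]
    apply sum_congr rfl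
    intro i _
    have e : 0 + 1 + i = i + 1 := by omega
    rw [e, Function.iterate_succ_apply]

theorem ocn_zero (n : ℕ) : ocn 0 n = 0 := by unfold ocn; simp

theorem H_succ {k n : ℕ} : H (k + 1) n ↔ n ≠ 1 ∧ H k (Tn n) := by
  unfold H
  constructor
  · rintro ⟨h1, h2⟩
    refine ⟨h2 0 (by omega), by rwa [Function.iterate_succ_apply] at h1, fun i hi => ?_⟩
    have := h2 (i + 1) (by omega)
    rwa [Function.iterate_succ_apply] at this
  · rintro ⟨h0, h1, h2⟩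
    refine ⟨by rwa [Function.iterate_succ_apply], fun i hi => ?_⟩
    rcases i with _ | i
    · exact h0
    · rw [Function.iterate_succ_apply]
      exact h2 i (by omega)

theorem Ts_succ {l n : ℕ} : Ts n (l + 1) ↔ n ≠ 1 ∧ Ts (CC n) l := by
  unfold Ts
  constructor
  · rintro ⟨h1, h2⟩
    refine ⟨h2 0 (by omega), by rwa [Function.iterate_succ_apply] at h1, fun i hi => ?_⟩
    have := h2 (i + 1) (by omega)
    rwa [Function.iterate_succ_apply] at this
  · rintro ⟨h0, h1, h2⟩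
    refine ⟨by rwa [Function.iterate_succ_apply], fun i hi => ?_⟩
    rcases i with _ | i
    · exact h0
    · rw [Function.iterate_succ_apply]
      exact h2 i (by omega)

theorem Ts_of_H {k : ℕ} : ∀ {n : ℕ}, H k n → Ts n (k + odn k n) ∧ ocn (k + odn k n) n = odn k n := by
  induction k with
  | zero =>
    intro n h
    rw [odn_zero, add_zero, ocn_zero]
    exact ⟨⟨h.1, fun j hj => absurd hj (by omega)⟩, rfl⟩
  | succ k ih =>
    intro n h
    obtain ⟨h0, h1⟩ := H_succ.1 h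
    obtain ⟨h2, h3⟩ := ih h1
    rw [odn_succ']
    rcases Nat.mod_two_eq_zero_or_one n with hp | hp
    · have e : k + 1 + (n % 2 + odn k (Tn n)) = (k + odn k (Tn n)) + 1 := by omega
      have e2 : CC n = Tn n := by unfold CC Pool.Agent.H499R2.ND.Tn; rw [if_pos hp, if_pos hp]
      rw [e, Ts_succ, ocn_succ', e2, h3]
      exact ⟨⟨h0, h2⟩, rfl⟩
    · have e : k + 1 + (n % 2 + odn k (Tn n)) = ((k + odn k (Tn n)) + 1) + 1 := by omega
      have e1 : CC n = 3 * n + 1 := by unfold CC; rw [if_neg (by omega)]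
      have e2 : CC (3 * n + 1) = Tn n := by
        unfold CC Pool.Agent.H499R2.ND.Tn; rw [if_pos (by omega), if_neg (by omega)]
      rw [e, Ts_succ, e1, Ts_succ, e2, ocn_succ', e1, ocn_succ', e2, h3]
      exact ⟨⟨h0, by omega, h2⟩, by omega⟩

theorem H_of_Ts : ∀ (l n : ℕ), Ts n l → ∃ k, H k n ∧ l = k + odn k n := by
  intro l
  induction l using Nat.strong_induction_on with
  | _ l ih =>
    intro n h
    rcases l with _ | l
    · have hn : n = 1 := h.1
      exact ⟨0, ⟨hn, fun i hi => absurd hi (by omega)⟩, by rw [odn_zero]⟩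
    · obtain ⟨h0, h1⟩ := Ts_succ.1 h
      rcases Nat.mod_two_eq_zero_or_one n with hp | hp
      · have e2 : CC n = Tn n := by unfold CC Pool.Agent.H499R2.ND.Tn; rw [if_pos hp, if_pos hp]
        rw [e2] at h1
        obtain ⟨k, hk, hl⟩ := ih l (by omega) (Tn n) h1
        refine ⟨k + 1, H_succ.2 ⟨h0, hk⟩, ?_⟩
        rw [odn_succ']; omega
      · have e1 : CC n = 3 * n + 1 := by unfold CC; rw [if_neg (by omega)]
        have e2 : CC (3 * n + 1) = Tn n := by
          unfold CC Pool.Agent.H499R2.ND.Tn; rw [if_pos (by omega), if_neg (by omega)]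
        rw [e1] at h1
        rcases l with _ | l
        · exfalso
          have : 3 * n + 1 = 1 := h1.1
          omega
        · obtain ⟨_, h2⟩ := Ts_succ.1 h1
          rw [e2] at h2
          obtain ⟨k, hk, hl⟩ := ih l (by omega) (Tn n) h2
          refine ⟨k + 1, H_succ.2 ⟨h0, hk⟩, ?_⟩
          rw [odn_succ']; omega

theorem Ts_iff (n l : ℕ) : Ts n l ↔ ∃ k, H k n ∧ l = k + odn k n :=
  ⟨H_of_Ts l n, fun ⟨_, hk, hl⟩ => hl ▸ (Ts_of_H hk).1⟩

theorem Ts_unique {n l l' : ℕ} (h : Ts n l) (h' : Ts n l') : l = l' := by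
  rcases lt_trichotomy l l' with h1 | h1 | h1
  · exact absurd h.1 (h'.2 l h1)
  · exact h1
  · exact absurd h'.1 (h.2 l' h1)

theorem Ts_ex {n : ℕ} : (∃ l, Ts n l) ↔ ∃ k, H k n :=
  ⟨fun ⟨l, hl⟩ => by obtain ⟨k, hk, _⟩ := H_of_Ts l n hl; exact ⟨k, hk⟩, fun ⟨_, hk⟩ => ⟨_, (Ts_of_H hk).1⟩⟩

theorem CC_ex {n : ℕ} : (∃ l, CC^[l] n = 1) ↔ ∃ k, H k n := by
  classical
  rw [← Ts_ex]
  constructor
  · intro h
    exact ⟨Nat.find h, Nat.find_spec h, fun i hi => Nat.find_min h hi⟩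
  · rintro ⟨l, hl⟩; exact ⟨l, hl.1⟩

/-- the natural laws for the Collatz function -/
structure Nat2 (δ : ℝ) : Prop where
  pos : 0 < δ
  le : δ ≤ 1
  fin : Mn (ind (fun n => True ∧ ∃ k, H k n)) δ
  lawL : ∀ (m : ℕ) (a b : ℤ), 1 ≤ m → ∀ x, Mn (ind (fun n => True ∧ Lv valL (clsL m a b)
    (th (3 / Real.log (4 / 3)) bL x) n)) (δ * Phi x / m ^ 2)

theorem level_iff_C (m : ℕ) (a b : ℤ) (x : ℝ) (n : ℕ) : (∃ k : ℕ, (k : ℝ) ≤ 3 / Real.log (4 / 3) * Real.log n
          + x * (Real.log 6 * Real.sqrt (2 * Real.log n / Real.log (4 / 3) ^ 3)) ∧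
        (CC^[k] n = 1 ∧ ∀ i < k, CC^[i] n ≠ 1) ∧
        (k : ℤ) ≡ a [ZMOD m] ∧ (ocn k n : ℤ) ≡ b [ZMOD m]) ↔
      (True ∧ Lv valL (clsL m a b) (th (3 / Real.log (4 / 3)) bL x) n) := by
  rw [true_and]
  unfold Lv valL clsL bL
  rw [th_eq]
  constructor
  · rintro ⟨l, h1, h2, h3, h4⟩
    obtain ⟨k, hk, rfl⟩ := H_of_Ts l n h2
    refine ⟨k, hk, h1, h3, ?_⟩
    rw [(Ts_of_H hk).2] at h4
    exact h4
  · rintro ⟨k, hk, h1, h3, h4⟩
    refine ⟨k + odn k n, h1, (Ts_of_H hk).1, h3, ?_⟩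
    rw [(Ts_of_H hk).2]
    exact h4

theorem nat2 : ∃ δ : ℝ, Nat2 δ ∧ (δ = 1 ↔ ∀ n : ℕ, 1 ≤ n → ∃ k : ℕ, CC^[k] n = 1) ∧
    Dn (fun n => ∃ k : ℕ, CC^[k] n = 1) δ := by
  obtain ⟨δ, h0, h1, h2, h3, h4⟩ := law_oneC
  refine ⟨δ, ⟨h0, h1, ?_, ?_⟩, h2, h3⟩
  · exact Mn_of_Dn (Dn_iff (fun n _ => by rw [true_and]; exact CC_ex) h3)
  · intro m a b hm x
    have h5 := h4 m a b hm x
    rw [← phi_cdf] at h5
    exact Mn_of_Dn (Dn_iff (fun n _ => level_iff_C m a b x n) h5)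

theorem psL {c K : ℝ} (hc : 1 < c) (hc' : c < 101 / 100) (hK : 0 ≤ K) (h : ∀ F : ℤ → ℝ, ASync 1 F → TS c K F)
    {δ : ℝ} (hδ : Nat2 δ) : Law (ps c) (fun _ => True) valL (3 / Real.log (4 / 3)) bL δ 1 ∧
    ∀ (m : ℕ) (a b : ℤ), 1 ≤ m → ∀ x, MnS (ps c) (ind (fun n => True ∧ Lv valL (clsL m a b)
      (th (3 / Real.log (4 / 3)) bL x) n)) (δ * Phi x / m ^ 2) := by
  have hν := nu_pos'
  constructor
  · refine Law_of hc hc' hK h (by positivity) bL_pos hδ.pos.le hδ.le hδ.fin fun x => ?_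
    have h1 := hδ.lawL 1 0 0 le_rfl x
    rw [Nat.cast_one, one_pow, div_one] at h1
    have e : ind (fun n => True ∧ Lv valL (clsL 1 0 0) (th (3 / Real.log (4 / 3)) bL x) n) =
        ind (fun n => True ∧ Lv valL (fun _ _ => True) (th (3 / Real.log (4 / 3)) bL x) n) := by
      funext n
      apply ind_congr
      refine and_congr_right fun _ => exists_congr fun k => and_congr_right fun _ => and_congr_right fun _ => ?_
      unfold clsL
      simp [Int.ModEq]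
    rw [← e]; exact h1
  · intro m a b hm x
    refine ps_law hc hc' hK (ts_lv h valL _) (by positivity) bL_pos ?_ (fun y => d01 hδ.pos.le hδ.le hm y)
      (fun y => hδ.lawL m a b hm y) x
    exact (Phi_continuous.const_mul δ).div_const _

/-- close functions have the same mean -/
theorem MnS_close {s : ℕ → ℕ} (hs : ∀ n, n ≤ s n) {u v w : ℕ → ℝ} {d : ℝ} (hu : MnS s u d) (hv : MnS s v 0)
    {B : ℝ} (hB : 0 ≤ B) (hw : ∀ m, |w m - u m| ≤ B) (hv0 : ∀ m, 0 ≤ v m) {m0 : ℕ}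
    (h : ∀ m, m0 ≤ m → |w m - u m| ≤ v m) : MnS s w d := by
  apply MnS_of
  intro ε hε _
  filter_upwards [hu.ev (show 0 < ε / 4 by positivity), hv.ev (show 0 < ε / 4 by positivity),
    tendsto_natCast_atTop_atTop.eventually_ge_atTop ((B * m0) / (ε / 4))] with X g1 g2 g3
  rw [div_le_iff₀ (by positivity)] at g3
  have hX0 : (0 : ℝ) ≤ X := Nat.cast_nonneg _
  have key := sum_few s hs m0 X hB hw h hv0
  have h7 : |∑ n ∈ Icc 1 X, w (s n) - d * X| ≤
      ∑ n ∈ Icc 1 X, |w (s n) - u (s n)| + |∑ n ∈ Icc 1 X, u (s n) - d * X| := by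
    have e6 : ∑ n ∈ Icc 1 X, w (s n) - d * X =
      (∑ n ∈ Icc 1 X, (w (s n) - u (s n))) + (∑ n ∈ Icc 1 X, u (s n) - d * X) := by
      rw [sum_sub_distrib]; ring
    rw [e6]
    exact (abs_add_le _ _).trans (add_le_add (abs_sum_le_sum_abs _ _) le_rfl)
  have h8 := (abs_le.1 g2).2
  have h9 : 0 ≤ ε * (X : ℝ) := by positivity
  linarith

end Pool.Agent.Y965.PL
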