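import Pool.Agent.Y965.PL.Tr
import Pool.Agent.H499R2.HL.A

/-! Functions of the hitting time and the number of odd terms; limit laws along `⌊n ^ c⌋`. -/

set_option autoImplicit false

namespace Pool.Agent.Y965.PL

open Finset Filter Topology Pool.Agent.Y965.PS
open Pool.Agent.H499R2.HL (H H_unique H_two H_of_two odn_two)
open Pool.Agent.H499R2.LT (odn)
open Pool.Agent.H499R2.ND (Tn Dn)

theorem Tz_nat (n : ℕ) : Tz 1 (n : ℤ) = ((Tn n : ℕ) : ℤ) := by
  unfold Tz Pool.Agent.H499R2.ND.Tn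
  split_ifs <;> omega

theorem Tz_iter (j n : ℕ) : (Tz 1)^[j] (n : ℤ) = ((Tn^[j] n : ℕ) : ℤ) := by
  induction j generalizing n with
  | zero => rfl
  | succ j ih => rw [Function.iterate_succ_apply, Function.iterate_succ_apply, Tz_nat, ih]

theorem ac_odn (j n : ℕ) : ac 1 j (n : ℤ) = odn j n := by
  induction j with
  | zero => unfold odn; simp [ac]
  | succ j ih =>
    rw [ac_succ, ih, Tz_iter]
    unfold odn
    rw [range_add_one, filter_insert]
    rcases Nat.mod_two_eq_zero_or_one (Tn^[j] n) with h | h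
    · rw [if_pos (by omega), if_neg (by omega), add_zero]
    · rw [if_neg (by omega), if_pos h, card_insert_of_notMem (by simp)]

theorem odn_step (k n : ℕ) : odn (k + 1) n = odn k n + (if Tn^[k] n % 2 = 0 then 0 else 1) := by
  rw [← ac_odn, ac_succ, ac_odn, Tz_iter]
  congr 1
  rcases Nat.mod_two_eq_zero_or_one (Tn^[k] n) with h | h
  · rw [if_pos (by omega), if_pos h]
  · rw [if_neg (by omega), if_neg (by omega)]

theorem odn_zero (n : ℕ) : odn 0 n = 0 := by unfold odn; simp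

theorem odn_split (j i n : ℕ) : odn (j + i) n = odn j n + odn i (Tn^[j] n) := by
  induction i with
  | zero => rw [odn_zero]; rfl
  | succ i ih =>
    rw [← add_assoc, odn_step, odn_step, ih, ← Function.iterate_add_apply, add_comm i j]; ring

theorem ne_one {j n : ℕ} (h : 2 ^ j < n) {i : ℕ} (hi : i ≤ j) : Tn^[i] n ≠ 1 := by
  intro h1
  have h2 := main_id (d := 1) (by norm_num) (n : ℤ) i
  rw [Tz_iter, h1] at h2
  have h3 := oc_nonneg (d := 1) (n : ℤ) i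
  have h4 : (1 : ℤ) ≤ 3 ^ (ac 1 i (n : ℤ)) := one_le_pow₀ (by norm_num)
  have h5 : (2 : ℤ) ^ i ≤ 2 ^ j := pow_le_pow_right₀ (by norm_num) hi
  have h6 : (2 : ℤ) ^ j < n := by exact_mod_cast h
  push_cast at h2
  nlinarith [Int.natCast_nonneg n]

theorem H_split {j n : ℕ} (h : 2 ^ j < n) (k : ℕ) : H k n ↔ ∃ i, k = j + i ∧ H i (Tn^[j] n) := by
  constructor
  · rintro ⟨h1, h2⟩
    have h3 : j < k := by
      by_contra hcon
      exact ne_one h (not_lt.1 hcon) h1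
    refine ⟨k - j, by omega, ?_, fun i hi => ?_⟩
    · rw [← Function.iterate_add_apply, Nat.sub_add_cancel h3.le]; exact h1
    · rw [← Function.iterate_add_apply]; exact h2 _ (by omega)
  · rintro ⟨i, rfl, h1, h2⟩
    refine ⟨?_, fun l hl => ?_⟩
    · rw [add_comm, Function.iterate_add_apply]; exact h1
    · rcases le_or_gt l j with h3 | h3
      · exact ne_one h h3
      · have h4 := h2 (l - j) (by omega)
        rwa [← Function.iterate_add_apply, Nat.sub_add_cancel h3.le] at h4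

open Classical in
/-- functions of the hitting time and the number of odd terms -/
noncomputable def Fg (g : ℕ → ℕ → ℝ) (g0 : ℝ) (n : ℕ) : ℝ :=
  if h : ∃ k, H k n then g h.choose (odn h.choose n) else g0

theorem Fg_H {g : ℕ → ℕ → ℝ} {g0 : ℝ} {k n : ℕ} (h : H k n) : Fg g g0 n = g k (odn k n) := by
  have hex : ∃ k, H k n := ⟨k, h⟩
  unfold Fg
  rw [dif_pos hex, H_unique hex.choose_spec h]

theorem Fg_not {g : ℕ → ℕ → ℝ} {g0 : ℝ} {n : ℕ} (h : ¬ ∃ k, H k n) : Fg g g0 n = g0 := by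
  unfold Fg
  rw [dif_neg h]

theorem Fg_abs {g : ℕ → ℕ → ℝ} {g0 B : ℝ} (hg : ∀ k o, |g k o| ≤ B) (hg0 : |g0| ≤ B) (n : ℕ) : |Fg g g0 n| ≤ B := by
  by_cases h : ∃ k, H k n
  · obtain ⟨k, hk⟩ := h
    rw [Fg_H hk]; exact hg _ _
  · rw [Fg_not h]; exact hg0

theorem async_Fg {g : ℕ → ℕ → ℝ} {g0 : ℝ} (hg : ∀ k o, |g k o| ≤ 1) (hg0 : |g0| ≤ 1) :
    ASync 1 (fun z => Fg g g0 z.toNat) := by
  refine ⟨fun z => Fg_abs hg hg0 _, fun j x y hx hy h1 h2 => ?_⟩
  have hp : (0 : ℤ) < 2 ^ j := by positivity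
  obtain ⟨n, rfl⟩ : ∃ n : ℕ, x = n := ⟨x.toNat, by omega⟩
  obtain ⟨m, rfl⟩ : ∃ m : ℕ, y = m := ⟨y.toNat, by omega⟩
  rw [Tz_iter, Tz_iter] at h1
  rw [ac_odn, ac_odn] at h2
  have h1' : Tn^[j] n = Tn^[j] m := by exact_mod_cast h1
  have hn : 2 ^ j < n := by exact_mod_cast hx
  have hm : 2 ^ j < m := by exact_mod_cast hy
  dsimp only
  rw [Int.toNat_natCast, Int.toNat_natCast]
  by_cases h : ∃ k, H k n
  · obtain ⟨k, hk⟩ := h
    obtain ⟨i, hi, hi'⟩ := (H_split hn k).1 hk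
    have hk' : H k m := (H_split hm k).2 ⟨i, hi, by rw [← h1']; exact hi'⟩
    rw [Fg_H hk, Fg_H hk']
    congr 1
    rw [hi, odn_split, odn_split, h2, h1']
  · have h' : ¬ ∃ k, H k m := by
      rintro ⟨k, hk⟩
      obtain ⟨i, hi, hi'⟩ := (H_split hm k).1 hk
      exact h ⟨k, (H_split hn k).2 ⟨i, hi, by rw [h1']; exact hi'⟩⟩
    rw [Fg_not h, Fg_not h']

theorem Fg_two {g : ℕ → ℝ} {g0 : ℝ} (m : ℕ) : Fg (fun _ o => g o) g0 (2 * m) = Fg (fun _ o => g o) g0 m := by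
  by_cases h : ∃ k, H k m
  · obtain ⟨k, hk⟩ := h
    rw [Fg_H hk, Fg_H (H_two hk), odn_two]
  · have h' : ¬ ∃ k, H k (2 * m) := by
      rintro ⟨k, hk⟩
      obtain ⟨k', _, hk'⟩ := H_of_two hk
      exact h ⟨k', hk'⟩
    rw [Fg_not h, Fg_not h']

open Classical in
/-- indicator functions -/
noncomputable def ind (P : ℕ → Prop) (n : ℕ) : ℝ := if P n then 1 else 0

theorem ind_pos {P : ℕ → Prop} {n : ℕ} (h : P n) : ind P n = 1 := by unfold ind; rw [if_pos h]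
theorem ind_neg {P : ℕ → Prop} {n : ℕ} (h : ¬ P n) : ind P n = 0 := by unfold ind; rw [if_neg h]
theorem ind_nonneg (P : ℕ → Prop) (n : ℕ) : 0 ≤ ind P n := by unfold ind; split_ifs <;> norm_num
theorem ind_le_one (P : ℕ → Prop) (n : ℕ) : ind P n ≤ 1 := by unfold ind; split_ifs <;> norm_num
theorem ind_abs (P : ℕ → Prop) (n : ℕ) : |ind P n| ≤ 1 := by
  rw [abs_of_nonneg (ind_nonneg P n)]; exact ind_le_one P n
theorem ind_mono {P Q : ℕ → Prop} {n : ℕ} (h : P n → Q n) : ind P n ≤ ind Q n := by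
  by_cases hp : P n
  · rw [ind_pos hp, ind_pos (h hp)]
  · rw [ind_neg hp]; exact ind_nonneg _ _
theorem ind_congr {P Q : ℕ → Prop} {n : ℕ} (h : P n ↔ Q n) : ind P n = ind Q n :=
  le_antisymm (ind_mono h.1) (ind_mono h.2)

/-- the level sets -/
def Lv (val : ℕ → ℕ → ℝ) (cls : ℕ → ℕ → Prop) (t : ℕ → ℝ) (n : ℕ) : Prop :=
  ∃ k : ℕ, H k n ∧ val k (odn k n) ≤ t n ∧ cls k (odn k n)

/-- thresholds -/
noncomputable def th (A b x : ℝ) (n : ℕ) : ℝ := A * Real.log n + x * (b * √ (Real.log n))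

theorem tlog : Tendsto (fun N : ℕ => Real.log (N : ℝ)) atTop atTop :=
  Real.tendsto_log_atTop.comp tendsto_natCast_atTop_atTop

theorem tsqrt : Tendsto (fun N : ℕ => √ (Real.log (N : ℝ))) atTop atTop := by
  have h : Tendsto (fun x : ℝ => √ x) atTop atTop := Real.tendsto_sqrt_atTop
  exact h.comp tlog

theorem log_scale {κ : ℝ} (hκ : 0 < κ) {N z : ℕ} (hN : 1 ≤ N) (h1 : κ * N < z) (h2 : z ≤ N) :
    Real.log z ≤ Real.log N ∧ Real.log N ≤ Real.log z + |Real.log κ| := by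
  have hN0 : (0 : ℝ) < N := by exact_mod_cast hN
  have hz : (0 : ℝ) < z := lt_trans (by positivity) h1
  refine ⟨Real.log_le_log hz (by exact_mod_cast h2), ?_⟩
  have h3 := Real.log_le_log (by positivity) h1.le
  rw [Real.log_mul hκ.ne' hN0.ne'] at h3
  have := neg_abs_le (Real.log κ)
  linarith

theorem sqrt_add' {L l : ℝ} (hL : 0 ≤ L) (hl : 0 ≤ l) : √ (L + l) ≤ √ L + √ l := by
  rw [Real.sqrt_le_left (by positivity)]
  have h1 := Real.sq_sqrt hL
  have h2 := Real.sq_sqrt hl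
  have h3 := mul_nonneg (Real.sqrt_nonneg L) (Real.sqrt_nonneg l)
  nlinarith

theorem th_cmp {A c : ℝ} (hA : 0 ≤ A) (hc : 0 < c) {x y κ : ℝ} (hxy : x < y) (hκ : 0 < κ) :
    ∀ᶠ N : ℕ in atTop, ∀ z : ℕ, κ * N < z → z ≤ N → th A c x z ≤ th A c y N ∧ th A c x N ≤ th A c y z := by
  set D : ℝ := |Real.log κ| with hD
  have hD0 : 0 ≤ D := abs_nonneg _
  filter_upwards [tsqrt.eventually_ge_atTop ((A * D + c * (|x| + |y|) * √ D) / (c * (y - x))),
    eventually_ge_atTop 1] with N h1 h2 z hz1 hz2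
  obtain ⟨h3, h4⟩ := log_scale hκ h2 hz1 hz2
  rw [div_le_iff₀ (mul_pos hc (by linarith))] at h1
  have hz0 : 0 ≤ Real.log (z : ℝ) := Real.log_natCast_nonneg z
  unfold th
  set ℓ := Real.log (N : ℝ) with hℓ
  set ℓ' := Real.log (z : ℝ) with hℓ'
  have h5 : √ ℓ' ≤ √ ℓ := Real.sqrt_le_sqrt h3
  have h6 : √ ℓ ≤ √ ℓ' + √ D := (Real.sqrt_le_sqrt h4).trans (sqrt_add' hz0 hD0)
  have hsD : 0 ≤ √ D := Real.sqrt_nonneg D
  have hax := abs_nonneg x
  have hay := abs_nonneg y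
  have hAD : 0 ≤ A * D := mul_nonneg hA hD0
  have hA1 : A * ℓ' ≤ A * ℓ := mul_le_mul_of_nonneg_left h3 hA
  have hA2 : A * ℓ ≤ A * (ℓ' + D) := mul_le_mul_of_nonneg_left h4 hA
  have q1 : 0 ≤ √ ℓ - √ ℓ' := by linarith
  have q2 : √ ℓ - √ ℓ' ≤ √ D := by linarith
  have p1 : -(|x| * √ D) ≤ x * (√ ℓ - √ ℓ') := by
    have q3 : -|x| * (√ ℓ - √ ℓ') ≤ x * (√ ℓ - √ ℓ') := mul_le_mul_of_nonneg_right (neg_abs_le x) q1
    have q4 : |x| * (√ ℓ - √ ℓ') ≤ |x| * √ D := mul_le_mul_of_nonneg_left q2 hax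
    linarith
  have p2 : y * (√ ℓ - √ ℓ') ≤ |y| * √ D := by
    have q3 : y * (√ ℓ - √ ℓ') ≤ |y| * (√ ℓ - √ ℓ') := mul_le_mul_of_nonneg_right (le_abs_self y) q1
    have q4 : |y| * (√ ℓ - √ ℓ') ≤ |y| * √ D := mul_le_mul_of_nonneg_left q2 hay
    linarith
  have p1' := mul_le_mul_of_nonneg_left p1 hc.le
  have p2' := mul_le_mul_of_nonneg_left p2 hc.le
  have p3 : 0 ≤ c * (|y| * √ D) := by positivity
  have p4 : 0 ≤ c * (|x| * √ D) := by positivity
  constructor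
  · nlinarith
  · nlinarith

theorem th_mono {A b x y : ℝ} (hb : 0 < b) (h : x ≤ y) (n : ℕ) : th A b x n ≤ th A b y n := by
  unfold th
  have : 0 ≤ b * √ (Real.log n) := by positivity
  nlinarith

/-- means along a sequence -/
def MnS (s : ℕ → ℕ) (u : ℕ → ℝ) (d : ℝ) : Prop := Tendsto (fun X : ℕ => (∑ n ∈ Icc 1 X, u (s n)) / X) atTop (𝓝 d)

theorem MnS_of {s : ℕ → ℕ} {u : ℕ → ℝ} {d : ℝ} (h : ∀ ε : ℝ, 0 < ε → ε ≤ 1 → ∀ᶠ X : ℕ in atTop,
    |∑ n ∈ Icc 1 X, u (s n) - d * X| ≤ ε * X) : MnS s u d := by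
  unfold MnS
  rw [Metric.tendsto_atTop]
  intro ε hε
  obtain ⟨N, hN⟩ := ((h (min (ε / 2) 1) (by positivity) (min_le_right _ _)).and (eventually_ge_atTop 1)).exists_forall_of_atTop
  refine ⟨N, fun X hX => ?_⟩
  obtain ⟨h1, h2⟩ := hN X hX
  have hX0 : (0 : ℝ) < X := by exact_mod_cast h2
  rw [Real.dist_eq]
  have e : (∑ n ∈ Icc 1 X, u (s n)) / X - d = (∑ n ∈ Icc 1 X, u (s n) - d * X) / X := by field_simp
  rw [e, abs_div, abs_of_pos hX0, div_lt_iff₀ hX0]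
  have h3 : min (ε / 2) 1 ≤ ε / 2 := min_le_left _ _
  nlinarith

theorem MnS.ev {s : ℕ → ℕ} {u : ℕ → ℝ} {d : ℝ} (h : MnS s u d) {ε : ℝ} (hε : 0 < ε) : ∀ᶠ X : ℕ in atTop,
    |∑ n ∈ Icc 1 X, u (s n) - d * X| ≤ ε * X := by
  obtain ⟨N0, hN0⟩ := (Metric.tendsto_atTop.1 h) ε hε
  filter_upwards [eventually_ge_atTop N0, eventually_ge_atTop 1] with X h1 h2
  have h3 := hN0 X h1
  have hX0 : (0 : ℝ) < X := by exact_mod_cast h2
  rw [Real.dist_eq] at h3
  have e : ∑ n ∈ Icc 1 X, u (s n) - d * X = ((∑ n ∈ Icc 1 X, u (s n)) / X - d) * X := by field_simp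
  rw [e, abs_mul, abs_of_pos hX0]
  exact mul_le_mul_of_nonneg_right h3.le hX0.le

/-- the sequence -/
noncomputable def ps (c : ℝ) (n : ℕ) : ℕ := ⌊(n : ℝ) ^ c⌋₊

theorem Mn_of_Dn {P : ℕ → Prop} {l : ℝ} (h : Dn P l) : Mn (ind P) l := by
  classical
  unfold Mn
  unfold Pool.Agent.H499R2.ND.Dn at h
  refine h.congr fun N => ?_
  congr 1
  unfold Pool.Agent.H499R2.ND.cnt ind
  rw [sum_boole]
  have e : {n : ℕ | 1 ≤ n ∧ n ≤ N ∧ P n} = ((Icc 1 N).filter P : Finset ℕ) := by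
    ext n
    simp only [Set.mem_ofPred_eq, coe_filter, mem_Icc, and_assoc]
  rw [e, Set.ncard_coe_finset]

/-- THE LAW ALONG THE SEQUENCE -/
theorem ps_law {c K : ℝ} (hc : 1 < c) (hc' : c < 101 / 100) (hK : 0 ≤ K) {E : ℕ → Prop} {val : ℕ → ℕ → ℝ}
    {cls : ℕ → ℕ → Prop}
    (hTS : ∀ t : ℝ, TS c K (fun z => ind (fun n => E n ∧ Lv val cls (fun _ => t) n) z.toNat))
    {A b : ℝ} (hA : 0 ≤ A) (hb : 0 < b) {d : ℝ → ℝ} (hd : Continuous d) (hd01 : ∀ x, 0 ≤ d x ∧ d x ≤ 1)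
    (hlaw : ∀ x, Mn (ind (fun n => E n ∧ Lv val cls (th A b x) n)) (d x)) (x : ℝ) :
    MnS (ps c) (ind (fun n => E n ∧ Lv val cls (th A b x) n)) (d x) := by
  apply MnS_of
  intro ε hε hε1
  obtain ⟨r, hr, hr'⟩ := Metric.continuousAt_iff.1 (hd.continuousAt (x := x)) (ε / 4) (by positivity)
  set θ : ℝ := r / 4 with hθ
  have hθ0 : 0 < θ := by positivity
  have d1 := hr' (x := x + 2 * θ) (by rw [Real.dist_eq, add_sub_cancel_left, abs_of_pos (by positivity)]; linarith)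
  have d2 := hr' (x := x - 2 * θ) (by
    rw [Real.dist_eq, sub_sub_cancel_left, abs_neg, abs_of_pos (by positivity)]; linarith)
  rw [Real.dist_eq, abs_lt] at d1 d2
  set W : ℝ → ℕ → Prop := fun y n => E n ∧ Lv val cls (th A b y) n with hW
  have hWm : ∀ y y' : ℝ, y ≤ y' → ∀ n, W y n → W y' n := by
    rintro y y' hy n ⟨h1, k, h2, h3, h4⟩
    exact ⟨h1, k, h2, h3.trans (th_mono hb hy n), h4⟩
  have hε2 : 0 < ε / 2 := by positivity
  have hκ : 0 < (ε / 2 / 12) ^ 2 := by positivity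
  have hsq := squeeze hc hc' hK (u := ind (W x)) (v := fun n => ind (W (x + 2 * θ)) n - ind (W (x - 2 * θ)) n)
    (d := d x) (e := d (x + 2 * θ) - d (x - 2 * θ)) (ind_abs _)
    (fun m => by
      have h1 := ind_mono (n := m) (hWm (x - 2 * θ) (x + 2 * θ) (by linarith) m)
      have h2 := ind_nonneg (W (x - 2 * θ)) m
      have h3 := ind_le_one (W (x + 2 * θ)) m
      rw [abs_le]; constructor <;> linarith) (hlaw x) ((hlaw _).sub (hlaw _))
    (by rw [abs_of_nonneg (hd01 x).1]; exact (hd01 x).2)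
    (by
      have h1 := hd01 (x + 2 * θ)
      have h2 := hd01 (x - 2 * θ)
      rw [abs_le]; constructor <;> linarith) hε2 (by linarith)
  have hN : Tendsto (fun X : ℕ => ⌊(X : ℝ) ^ c⌋₊) atTop atTop := by
    apply tendsto_nat_floor_atTop.comp
    exact (tendsto_rpow_atTop (by linarith)).comp tendsto_natCast_atTop_atTop
  filter_upwards [hsq, hN.eventually (th_cmp hA hb (show x - θ < x by linarith) hκ),
    hN.eventually (th_cmp hA hb (show x < x + θ by linarith) hκ),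
    hN.eventually (th_cmp hA hb (show x - 2 * θ < x - θ by linarith) hκ),
    hN.eventually (th_cmp hA hb (show x + θ < x + 2 * θ by linarith) hκ)] with X h c1 c2 c3 c4
  set N := ⌊(X : ℝ) ^ c⌋₊ with hNdef
  have h1 := h (ind (W x)) (fun z => ind (fun n => E n ∧ Lv val cls (fun _ => th A b (x - θ) N) n) z.toNat)
    (fun z => ind (fun n => E n ∧ Lv val cls (fun _ => th A b (x + θ) N) n) z.toNat) (ind_abs _) (hTS _) (hTS _) ?_
  · refine h1.trans ?_
    have hX0 : (0 : ℝ) ≤ X := Nat.cast_nonneg _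
    nlinarith
  · intro m hm1 hm2
    simp only [Int.toNat_natCast]
    have i1 : ind (fun n => E n ∧ Lv val cls (fun _ => th A b (x - θ) N) n) m ≤ ind (W x) m := by
      apply ind_mono
      rintro ⟨g0, k, g1, g2, g3⟩
      exact ⟨g0, k, g1, g2.trans (c1 m hm1 hm2).2, g3⟩
    have i2 : ind (W x) m ≤ ind (fun n => E n ∧ Lv val cls (fun _ => th A b (x + θ) N) n) m := by
      apply ind_mono
      rintro ⟨g0, k, g1, g2, g3⟩
      exact ⟨g0, k, g1, g2.trans (c2 m hm1 hm2).1, g3⟩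
    have i3 : ind (W (x - 2 * θ)) m ≤ ind (fun n => E n ∧ Lv val cls (fun _ => th A b (x - θ) N) n) m := by
      apply ind_mono
      rintro ⟨g0, k, g1, g2, g3⟩
      exact ⟨g0, k, g1, g2.trans (c3 m hm1 hm2).1, g3⟩
    have i4 : ind (fun n => E n ∧ Lv val cls (fun _ => th A b (x + θ) N) n) m ≤ ind (W (x + 2 * θ)) m := by
      apply ind_mono
      rintro ⟨g0, k, g1, g2, g3⟩
      exact ⟨g0, k, g1, g2.trans (c4 m hm1 hm2).2, g3⟩
    have i5 : ind (W x) m ≤ ind (W (x + 2 * θ)) m := ind_mono (hWm _ _ (by linarith) m)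
    have i6 : ind (W (x - 2 * θ)) m ≤ ind (W x) m := ind_mono (hWm _ _ (by linarith) m)
    refine ⟨i1, i2, by linarith, by linarith⟩

/-- a fixed set with a transferable indicator function -/
theorem ps_set {c K : ℝ} (hc : 1 < c) (hc' : c < 101 / 100) (hK : 0 ≤ K) {P : ℕ → Prop}
    (hTS : TS c K (fun z => ind P z.toNat)) {d : ℝ} (hd : |d| ≤ 1) (h : Mn (ind P) d) : MnS (ps c) (ind P) d := by
  apply MnS_of
  intro ε hε hε1
  filter_upwards [squeeze hc hc' hK (u := ind P) (v := fun _ => 0) (d := d) (e := 0) (ind_abs _)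
    (fun m => by simp) h (Mn_const 0) hd (by simp) hε hε1] with X h1
  have h2 := h1 (ind P) (fun z => ind P z.toNat) (fun z => ind P z.toNat) (ind_abs _) hTS hTS (fun m _ _ => by
    simp only [Int.toNat_natCast, sub_zero, add_zero, le_refl, and_self])
  rw [zero_add] at h2
  exact h2

end Pool.Agent.Y965.PL
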