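import Pool.Agent.Y965.PS.Fin
import Pool.Agent.Y965.PS.Conv

/-! The dispersion inequality for functions of the point and the number of odd terms at a time at which
the trajectories have not yet reached the bottom. -/

set_option autoImplicit false

namespace Pool.Agent.Y965.PL

open Finset Pool.Agent.Y965.PS

variable {d : ℤ}

/-- bounded functions that take the same value at `x` and `y` whenever the trajectories are at the same
point at the same time `j`, with the same number of odd terms, and `2 ^ j < x`, `2 ^ j < y` -/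
def ASync (d : ℤ) (F : ℤ → ℝ) : Prop :=
  (∀ x, |F x| ≤ 1) ∧ ∀ (j : ℕ) (x y : ℤ), 2 ^ j < x → 2 ^ j < y → (Tz d)^[j] x = (Tz d)^[j] y →
    ac d j x = ac d j y → F x = F y

open Classical in
/-- THE DISPERSION INEQUALITY -/
theorem disp (hd : d = 1 ∨ d = -1) (u : ℕ) {R : ℝ} (hR : 0 ≤ R) (N1 N : ℕ) (hu : 2 ^ (5 * u) ≤ N1) {F : ℤ → ℝ} (hF : ASync d F)
    {z : ℕ → ℂ} (hz1 : ∀ m, ‖z m‖ ≤ 1) {β : ℕ → ℝ} (hβ : ∀ h, 0 ≤ β h)
    (hz : ∀ h : ℕ, 1 ≤ h → (h : ℝ) ≤ R * (32 / 9) ^ u → ∀ m0 J : ℕ, N1 < m0 →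
      (∀ j < J, m0 + 2 ^ (5 * u) * j + h ≤ N) →
      ‖∑ j ∈ range J, z (m0 + 2 ^ (5 * u) * j) * (starRingEnd ℂ) (z (m0 + 2 ^ (5 * u) * j + h))‖ ≤ β h) :
    ‖∑ m ∈ GS d u R N1 N, (F m : ℂ) * z m‖ ^ 2 ≤ ((u + 1) * (N * (27 / 32) ^ u + R)) *
      (N + 2 * (2 ^ (5 * u) * ∑ h ∈ Icc 1 ⌊R * (32 / 9) ^ u⌋₊, β h)) := by
  set G := GS d u R N1 N with hG
  set κ : ℕ → ℤ × ℕ := fun m => kp d u (m : ℤ) with hκ
  set I := G.image κ with hI
  set A : ℤ × ℕ → ℂ := fun p => ∑ m ∈ G.filter (fun m => κ m = p), z m with hA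
  -- step 1
  have h1 : ‖∑ m ∈ G, (F m : ℂ) * z m‖ ≤ ∑ p ∈ I, ‖A p‖ := by
    rw [← sum_fiberwise_of_maps_to (s := G) (t := I) (g := κ) (fun m hm => mem_image_of_mem _ hm)]
    refine (norm_sum_le _ _).trans (sum_le_sum fun p hp => ?_)
    rw [hI, mem_image] at hp
    obtain ⟨m0, hm0, hp0⟩ := hp
    have e : ∑ m ∈ G.filter (fun m => κ m = p), (F m : ℂ) * z m = (F m0 : ℂ) * A p := by
      rw [hA]
      dsimp only
      rw [mul_sum]
      apply sum_congr rfl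
      intro m hm
      rw [mem_filter] at hm
      have h2 : κ m = κ m0 := by rw [hm.2, hp0]
      rw [hκ] at h2
      unfold kp at h2
      simp only [Prod.mk.injEq] at h2
      have hmG : m ∈ GS d u R N1 N := hm.1
      have hm0G : m0 ∈ GS d u R N1 N := hm0
      rw [mem_GS] at hmG hm0G
      have i1 : (2 : ℤ) ^ (5 * u) < m := by
        have : 2 ^ (5 * u) < m := lt_of_le_of_lt hu hmG.1.1
        exact_mod_cast this
      have i2 : (2 : ℤ) ^ (5 * u) < m0 := by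
        have : 2 ^ (5 * u) < m0 := lt_of_le_of_lt hu hm0G.1.1
        exact_mod_cast this
      rw [hF.2 (5 * u) m m0 i1 i2 h2.1 h2.2]
    rw [e, norm_mul, Complex.norm_real, Real.norm_eq_abs]
    have := hF.1 m0
    nlinarith [norm_nonneg (A p)]
  -- step 2
  have h2 : (∑ p ∈ I, ‖A p‖) ^ 2 ≤ I.card * ∑ p ∈ I, ‖A p‖ ^ 2 := sq_sum_le_card_mul_sum_sq
  -- step 3
  have h3 : ((∑ p ∈ I, ‖A p‖ ^ 2 : ℝ) : ℂ) = ∑ p ∈ PP d u R N1 N, z p.1 * (starRingEnd ℂ) (z p.2) := by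
    have e1 : ∑ p ∈ PP d u R N1 N, z p.1 * (starRingEnd ℂ) (z p.2)
        = ∑ m ∈ G, ∑ m' ∈ G.filter (fun m' => κ m = κ m'), z m * (starRingEnd ℂ) (z m') := by
      unfold PP
      rw [sum_filter, sum_product]
      exact sum_congr rfl fun m _ => (sum_filter _ _).symm
    rw [e1, ← sum_fiberwise_of_maps_to (s := G) (t := I) (g := κ) (fun m hm => mem_image_of_mem _ hm)]
    push_cast
    apply sum_congr rfl
    intro p _
    have e2 : ∑ m ∈ G.filter (fun m => κ m = p), ∑ m' ∈ G.filter (fun m' => κ m = κ m'), z m * (starRingEnd ℂ) (z m')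
        = ∑ m ∈ G.filter (fun m => κ m = p), ∑ m' ∈ G.filter (fun m' => κ m' = p), z m * (starRingEnd ℂ) (z m') := by
      apply sum_congr rfl
      intro m hm
      rw [mem_filter] at hm
      rw [hm.2]
      apply sum_congr _ fun _ _ => rfl
      ext m'
      rw [mem_filter, mem_filter]
      constructor
      · rintro ⟨a, b⟩; exact ⟨a, b.symm⟩
      · rintro ⟨a, b⟩; exact ⟨a, b.symm⟩
    rw [e2, ← sum_mul_sum, ← map_sum]
    rw [← Complex.ofReal_pow, ← Complex.normSq_eq_norm_sq, Complex.mul_conj]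
  -- step 4
  set D : ℂ := ∑ p ∈ (PP d u R N1 N).filter (fun p => p.1 < p.2), z p.1 * (starRingEnd ℂ) (z p.2) with hD
  have h4 : ∑ p ∈ PP d u R N1 N, z p.1 * (starRingEnd ℂ) (z p.2)
      = ∑ p ∈ (PP d u R N1 N).filter (fun p => p.1 = p.2), z p.1 * (starRingEnd ℂ) (z p.2)
        + (D + (starRingEnd ℂ) D) := by
    rw [← sum_filter_add_sum_filter_not (PP d u R N1 N) (fun p => p.1 = p.2)]
    congr 1
    rw [← sum_filter_add_sum_filter_not ((PP d u R N1 N).filter fun p => ¬ p.1 = p.2) (fun p => p.1 < p.2)]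
    congr 1
    · rw [hD, filter_filter]
      apply sum_congr _ fun _ _ => rfl
      apply filter_congr
      intro p _
      omega
    · rw [hD, map_sum, filter_filter]
      refine sum_bij' (fun p _ => (p.2, p.1)) (fun p _ => (p.2, p.1)) ?_ ?_ ?_ ?_ ?_
      · intro p hp
        rw [mem_filter, mem_PP] at hp ⊢
        exact ⟨⟨⟨hp.1.1.2, hp.1.1.1⟩, hp.1.2.symm⟩, by dsimp only; omega⟩
      · intro p hp
        rw [mem_filter, mem_PP] at hp ⊢
        refine ⟨⟨⟨hp.1.1.2, hp.1.1.1⟩, hp.1.2.symm⟩, ?_⟩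
        dsimp only
        have := hp.2
        omega
      · intro p _; rfl
      · intro p _; rfl
      · intro p _
        dsimp only
        rw [map_mul, Complex.conj_conj, mul_comm]
  have h5 : ‖∑ p ∈ (PP d u R N1 N).filter (fun p => p.1 = p.2), z p.1 * (starRingEnd ℂ) (z p.2)‖ ≤ N := by
    refine (norm_sum_le _ _).trans ?_
    have h6 : ∀ p ∈ (PP d u R N1 N).filter (fun p => p.1 = p.2), ‖z p.1 * (starRingEnd ℂ) (z p.2)‖ ≤ 1 := by
      intro p _
      rw [norm_mul, RCLike.norm_conj]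
      have a := hz1 p.1
      have b := hz1 p.2
      nlinarith [norm_nonneg (z p.1), norm_nonneg (z p.2)]
    refine (sum_le_sum h6).trans ?_
    rw [sum_const, nsmul_eq_mul, mul_one]
    have h7 : ((PP d u R N1 N).filter (fun p => p.1 = p.2)) ⊆ (Icc 1 N).image fun m => (m, m) := by
      intro p hp
      rw [mem_filter, mem_PP, mem_GS] at hp
      rw [mem_image]
      refine ⟨p.1, ?_, ?_⟩
      · rw [mem_Icc]; have := hp.1.1.1.1; omega
      · ext
        · rfl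
        · exact hp.2
    have h8 := (card_le_card h7).trans card_image_le
    rw [Nat.card_Icc, Nat.add_sub_cancel] at h8
    exact_mod_cast h8
  have h6 : ‖D‖ ≤ 2 ^ (5 * u) * ∑ h ∈ Icc 1 ⌊R * (32 / 9) ^ u⌋₊, β h := by
    rw [hD, upper_pairs hd, mul_sum]
    refine (norm_sum_le _ _).trans (sum_le_sum fun h hh => ?_)
    rw [mem_Icc] at hh
    have hh2 : (h : ℝ) ≤ R * (32 / 9) ^ u := (Nat.le_floor_iff (by positivity)).1 hh.2
    exact pair_sum u R N1 N h (hz h hh.1 hh2) (hβ h)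
  have h7 : ∑ p ∈ I, ‖A p‖ ^ 2 ≤ N + 2 * (2 ^ (5 * u) * ∑ h ∈ Icc 1 ⌊R * (32 / 9) ^ u⌋₊, β h) := by
    have h8 : ‖((∑ p ∈ I, ‖A p‖ ^ 2 : ℝ) : ℂ)‖ = ∑ p ∈ I, ‖A p‖ ^ 2 := by
      rw [Complex.norm_real, Real.norm_eq_abs, abs_of_nonneg (sum_nonneg fun _ _ => by positivity)]
    rw [← h8, h3, h4]
    refine (norm_add_le _ _).trans ?_
    have h9 := norm_add_le D ((starRingEnd ℂ) D)
    rw [RCLike.norm_conj] at h9
    linarith
  calc _ ≤ (∑ p ∈ I, ‖A p‖) ^ 2 := pow_le_pow_left₀ (norm_nonneg _) h1 2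
    _ ≤ I.card * ∑ p ∈ I, ‖A p‖ ^ 2 := h2
    _ ≤ _ := mul_le_mul (image_card hd u hR N1 N) h7 (sum_nonneg fun _ _ => by positivity) (by positivity)

end Pool.Agent.Y965.PL
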