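import Pool.Agent.Y965.PL.Col
import Pool.Agent.H499R2.HL.C

/-! Heights of odd integers along `⌊n ^ c⌋`. -/

set_option autoImplicit false

namespace Pool.Agent.Y965.PL

open Finset Filter Topology Pool.Agent.Y965.PS
open Pool.Agent.H499R2.HL (H H_unique bo ht_H law_ht)
open Pool.Agent.H499R2.LT (odn Dn_iff)
open Pool.Agent.H499R2.ND (Tn Dn Phi phi_cdf Phi_continuous IsHt ht_unique)

theorem one_ht : IsHt 1 1 := by
  refine ⟨le_rfl, ?_, fun k h1 h2 => absurd h2 (by omega)⟩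
  rw [Function.iterate_one]
  unfold Pool.Agent.H363R2.Cm
  have : padicValNat 2 (3 * 1 + 1) = 2 := by
    rw [show 3 * 1 + 1 = 2 ^ 2 by norm_num, padicValNat.prime_pow]
  rw [this]
  norm_num

theorem H_one : H 0 1 := ⟨rfl, fun i hi => absurd hi (by omega)⟩

theorem ht_max {m : ℕ} (hm : m % 2 = 1) (h : ℕ) : IsHt m h ↔ ∃ k, H k m ∧ max (odn k m) 1 = h := by
  by_cases h1 : m = 1
  · subst h1
    constructor
    · intro hh
      refine ⟨0, H_one, ?_⟩
      rw [odn_zero]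
      exact ht_unique one_ht hh
    · rintro ⟨k, hk, rfl⟩
      have : k = 0 := H_unique hk H_one
      subst this
      rw [odn_zero]
      exact one_ht
  · rw [ht_H hm h1]
    have hpos : ∀ k, H k m → max (odn k m) 1 = odn k m := by
      intro k hk
      have h2 : IsHt m (odn k m) := (ht_H hm h1 _).2 ⟨k, hk, rfl⟩
      exact max_eq_left h2.1
    refine exists_congr fun k => and_congr_right fun hk => ?_
    rw [hpos k hk]

theorem ht_ex {m : ℕ} (hm : m % 2 = 1) : (∃ h, IsHt m h) ↔ ∃ k, H k m := by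
  constructor
  · rintro ⟨h, hh⟩
    obtain ⟨k, hk, _⟩ := (ht_max hm h).1 hh
    exact ⟨k, hk⟩
  · rintro ⟨k, hk⟩
    exact ⟨_, (ht_max hm _).2 ⟨k, hk, rfl⟩⟩

/-- the height -/
def valH (_ o : ℕ) : ℝ := ((max o 1 : ℕ) : ℝ)
/-- residue classes -/
def clsH (q : ℕ) (b : ℤ) (_ o : ℕ) : Prop := ((max o 1 : ℕ) : ℤ) ≡ b [ZMOD q]

theorem bo_th (x : ℝ) (n : ℕ) : th (1 / Real.log (4 / 3)) bO x n = bo x (Real.log n) := by
  unfold bO Pool.Agent.H499R2.HL.bo
  rw [th_eq]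

/-- the natural laws of the heights -/
structure Nat3 (δ : ℝ) : Prop where
  pos : 0 < δ
  le : δ ≤ 1
  fin : Mn (ind (fun n => n % 2 = 1 ∧ ∃ k, H k n)) (δ / 2)
  law : ∀ (q : ℕ) (b : ℤ), 1 ≤ q → ∀ x, Mn (ind (fun n => n % 2 = 1 ∧ Lv valH (clsH q b)
    (th (1 / Real.log (4 / 3)) bO x) n)) (δ / q * Phi x / 2)

theorem lev_ht (q : ℕ) (b : ℤ) (x : ℝ) {n : ℕ} (hn : n % 2 = 1) :
    (∃ h : ℕ, IsHt n h ∧ (h : ℝ) ≤ bo x (Real.log n) ∧ (h : ℤ) ≡ b [ZMOD q]) ↔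
      Lv valH (clsH q b) (th (1 / Real.log (4 / 3)) bO x) n := by
  unfold Lv valH clsH
  rw [bo_th]
  constructor
  · rintro ⟨h, h1, h2, h3⟩
    obtain ⟨k, hk, rfl⟩ := (ht_max hn h).1 h1
    exact ⟨k, hk, h2, h3⟩
  · rintro ⟨k, hk, h2, h3⟩
    exact ⟨_, (ht_max hn _).2 ⟨k, hk, rfl⟩, h2, h3⟩

theorem nat3 : ∃ δ : ℝ, Nat3 δ ∧ (δ = 1 ↔ ∀ m : ℕ, Odd m → ∃ h, IsHt m h) ∧
    Dn (fun n => n % 2 = 1 ∧ ∃ h : ℕ, IsHt n h) (δ / 2) := by
  obtain ⟨δ, h0, h1, h2, h3, h4⟩ := law_ht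
  refine ⟨δ, ⟨h0, h1, ?_, ?_⟩, h2, h3⟩
  · exact Mn_of_Dn (Dn_iff (fun n _ => and_congr_right fun hn => ht_ex hn) h3)
  · intro q b hq x
    exact Mn_of_Dn (Dn_iff (fun n _ => and_congr_right fun hn => lev_ht q b x hn) ((h4 q b hq).2 x))

open Classical in
theorem ts_odd {c K : ℝ} (h : ∀ F : ℤ → ℝ, ASync 1 F → (∀ m : ℕ, 1 ≤ m → F ((2 * m : ℕ) : ℤ) = F m) →
    TS c K (fun z => if z % 2 = 1 then F z else 0)) : TS c K (fun z => ind (fun n => n % 2 = 1) z.toNat) := by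
  refine TS_congr (h _ async_one (fun _ _ => rfl)) (fun x => ind_abs _ _) ?_
  intro m
  simp only [Int.toNat_natCast]
  by_cases hm : m % 2 = 1
  · rw [if_pos (by omega), ind_pos (P := fun n => n % 2 = 1) hm]
  · rw [if_neg (by omega), ind_neg (P := fun n => n % 2 = 1) hm]

theorem Mn_odd : Mn (ind (fun n => n % 2 = 1)) (1 / 2) := by
  have key : ∀ N : ℕ, |∑ m ∈ Icc 1 N, ind (fun n => n % 2 = 1) m - (N : ℝ) / 2| ≤ 1 / 2 ∧
      (N % 2 = 0 → ∑ m ∈ Icc 1 N, ind (fun n => n % 2 = 1) m = (N : ℝ) / 2) ∧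
      (N % 2 = 1 → ∑ m ∈ Icc 1 N, ind (fun n => n % 2 = 1) m = (N : ℝ) / 2 + 1 / 2) := by
    intro N
    have h : (N % 2 = 0 → ∑ m ∈ Icc 1 N, ind (fun n => n % 2 = 1) m = (N : ℝ) / 2) ∧
      (N % 2 = 1 → ∑ m ∈ Icc 1 N, ind (fun n => n % 2 = 1) m = (N : ℝ) / 2 + 1 / 2) := by
      induction N with
      | zero => simp
      | succ N ih =>
        rw [Finset.sum_Icc_succ_top (by omega)]
        constructor
        · intro h
          rw [ih.2 (by omega), ind_neg (P := fun n => n % 2 = 1) (by omega)]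
          push_cast; ring
        · intro h
          rw [ih.1 (by omega), ind_pos (P := fun n => n % 2 = 1) (by omega)]
          push_cast; ring
    refine ⟨?_, h⟩
    rcases Nat.mod_two_eq_zero_or_one N with h0 | h0
    · rw [h.1 h0]; norm_num
    · rw [h.2 h0, add_sub_cancel_left]; norm_num
  unfold Mn
  rw [Metric.tendsto_atTop]
  intro ε hε
  obtain ⟨N0, hN0⟩ := exists_nat_gt (1 / ε)
  refine ⟨max N0 1, fun N hN => ?_⟩
  have h1 : N0 ≤ N := (le_max_left _ _).trans hN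
  have h2 : 1 ≤ N := (le_max_right _ _).trans hN
  have hN' : (0 : ℝ) < N := by exact_mod_cast h2
  rw [Real.dist_eq]
  have e : (∑ m ∈ Icc 1 N, ind (fun n => n % 2 = 1) m) / N - 1 / 2 =
      (∑ m ∈ Icc 1 N, ind (fun n => n % 2 = 1) m - (N : ℝ) / 2) / N := by field_simp
  rw [e, abs_div, abs_of_pos hN', div_lt_iff₀ hN']
  have h3 : 1 / ε < N := hN0.trans_le (by exact_mod_cast h1)
  rw [div_lt_iff₀ hε] at h3
  have := (key N).1
  linarith

/-- the laws of the heights along the sequence -/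
theorem psH {c K : ℝ} (hc : 1 < c) (hc' : c < 101 / 100) (hK : 0 ≤ K)
    (h : ∀ F : ℤ → ℝ, ASync 1 F → (∀ m : ℕ, 1 ≤ m → F ((2 * m : ℕ) : ℤ) = F m) →
    TS c K (fun z => if z % 2 = 1 then F z else 0))
    {δ : ℝ} (hδ : Nat3 δ) : Law (ps c) (fun n => n % 2 = 1) valH (1 / Real.log (4 / 3)) bO (δ / 2) (1 / 2) ∧
    ∀ (q : ℕ) (b : ℤ), 1 ≤ q → ∀ x, MnS (ps c) (ind (fun n => n % 2 = 1 ∧ Lv valH (clsH q b)
      (th (1 / Real.log (4 / 3)) bO x) n)) (δ / q * Phi x / 2) := by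
  have hν := nu_pos'
  have hd : ∀ q : ℕ, 1 ≤ q → ∀ x, 0 ≤ δ / q * Phi x / 2 ∧ δ / q * Phi x / 2 ≤ 1 := by
    intro q hq x
    obtain ⟨h2, h3⟩ := Phi01 x
    have hq1 : (1 : ℝ) ≤ q := by exact_mod_cast hq
    have h0 := hδ.pos
    have h1 := hδ.le
    have h4 : δ / q ≤ 1 := by rw [div_le_one (by linarith)]; linarith
    have h5 : 0 ≤ δ / q := by positivity
    constructor
    · positivity
    · nlinarith
  have key : ∀ (q : ℕ) (b : ℤ), 1 ≤ q → ∀ x, MnS (ps c) (ind (fun n => n % 2 = 1 ∧ Lv valH (clsH q b)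
      (th (1 / Real.log (4 / 3)) bO x) n)) (δ / q * Phi x / 2) := by
    intro q b hq x
    exact ps_law hc hc' hK (ts_lv_odd h (fun o => ((max o 1 : ℕ) : ℝ)) (fun o => ((max o 1 : ℕ) : ℤ) ≡ b [ZMOD q]))
      (by positivity) bO_pos ((Phi_continuous.const_mul _).div_const _) (hd q hq) (fun y => hδ.law q b hq y) x
  refine ⟨⟨?_, ?_, fun x => ?_⟩, key⟩
  · exact ps_set hc hc' hK (ts_odd h) (by rw [abs_of_pos] <;> norm_num) Mn_odd
  · exact ps_set hc hc' hK (ts_fin_odd h) (by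
      rw [abs_of_pos (by have := hδ.pos; positivity)]
      have := hδ.le
      linarith) hδ.fin
  · have h1 := key 1 0 le_rfl x
    have e : ind (fun n => n % 2 = 1 ∧ Lv valH (clsH 1 0) (th (1 / Real.log (4 / 3)) bO x) n) =
        ind (fun n => n % 2 = 1 ∧ Lv valH (fun _ _ => True) (th (1 / Real.log (4 / 3)) bO x) n) := by
      funext n
      apply ind_congr
      refine and_congr_right fun _ => exists_congr fun k => and_congr_right fun _ => and_congr_right fun _ => ?_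
      unfold clsH
      simp [Int.ModEq]
    rw [e, Nat.cast_one, div_one] at h1
    have e2 : δ * Phi x / 2 = δ / 2 * Phi x := by ring
    rw [e2] at h1
    exact h1

end Pool.Agent.Y965.PL
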