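import Pool.Agent.Y965.PL.Avg
import Pool.Agent.H499R2.HL.B

/-! The laws of the total stopping times and of the heights along `⌊n ^ c⌋`. -/

set_option autoImplicit false

namespace Pool.Agent.Y965.PL

open Finset Filter Topology Pool.Agent.Y965.PS
open Pool.Agent.H499R2.HL (H H_unique H_two H_of_two odn_two bo)
open Pool.Agent.H499R2.LT (odn ocn law_one law_oneC Dn_iff)
open Pool.Agent.H499R2.ND (Tn Dn Phi phi_cdf Phi_continuous CC)

theorem TS_congr {c K : ℝ} {F G : ℤ → ℝ} (hF : TS c K F) (hG : ∀ x, |G x| ≤ 1) (h : ∀ m : ℕ, F m = G m) :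
    TS c K G := by
  refine ⟨hG, fun X hX => ?_⟩
  have h1 := hF.2 X hX
  have e1 : ∑ n ∈ Icc 1 X, G ⌊(n : ℝ) ^ c⌋ = ∑ n ∈ Icc 1 X, F ⌊(n : ℝ) ^ c⌋ := by
    apply sum_congr rfl
    intro n _
    have e : (⌊(n : ℝ) ^ c⌋ : ℤ) = ((⌊(n : ℝ) ^ c⌋₊ : ℕ) : ℤ) :=
      (Int.natCast_floor_eq_floor (by positivity)).symm
    rw [e, h]
  have e2 : ∑ m ∈ Icc 1 ⌊(X : ℝ) ^ c⌋₊, G m * ell (1 / c) m = ∑ m ∈ Icc 1 ⌊(X : ℝ) ^ c⌋₊, F m * ell (1 / c) m := by
    apply sum_congr rfl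
    intro m _
    rw [h]
  rw [e1, e2]
  exact h1

open Classical in
theorem ind_Lv_Fg (val : ℕ → ℕ → ℝ) (cls : ℕ → ℕ → Prop) (t : ℝ) (n : ℕ) :
    ind (Lv val cls (fun _ => t)) n = Fg (fun k o => if val k o ≤ t ∧ cls k o then 1 else 0) 0 n := by
  by_cases h : ∃ k, H k n
  · obtain ⟨k, hk⟩ := h
    rw [Fg_H hk]
    by_cases h2 : val k (odn k n) ≤ t ∧ cls k (odn k n)
    · rw [if_pos h2]
      exact ind_pos ⟨k, hk, h2.1, h2.2⟩
    · rw [if_neg h2]
      apply ind_neg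
      rintro ⟨k', hk', g1, g2⟩
      have := H_unique hk' hk
      subst this
      exact h2 ⟨g1, g2⟩
  · rw [Fg_not h]
    apply ind_neg
    rintro ⟨k, hk, _⟩
    exact h ⟨k, hk⟩

open Classical in
theorem ts_lv {c K : ℝ} (h : ∀ F : ℤ → ℝ, ASync 1 F → TS c K F) (val : ℕ → ℕ → ℝ) (cls : ℕ → ℕ → Prop) (t : ℝ) :
    TS c K (fun z => ind (fun n => True ∧ Lv val cls (fun _ => t) n) z.toNat) := by
  refine TS_congr (h _ (async_Fg (g := fun k o => if val k o ≤ t ∧ cls k o then 1 else 0) (g0 := 0) ?_ (by simp)))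
    (fun x => ind_abs _ _) ?_
  · intro k o
    split_ifs <;> simp
  · intro m
    simp only [Int.toNat_natCast]
    rw [← ind_Lv_Fg]
    exact ind_congr (by simp)

open Classical in
theorem ts_lv_odd {c K : ℝ} (h : ∀ F : ℤ → ℝ, ASync 1 F → (∀ m : ℕ, 1 ≤ m → F ((2 * m : ℕ) : ℤ) = F m) →
    TS c K (fun z => if z % 2 = 1 then F z else 0)) (val : ℕ → ℝ) (cls : ℕ → Prop) (t : ℝ) :
    TS c K (fun z => ind (fun n => n % 2 = 1 ∧ Lv (fun _ o => val o) (fun _ o => cls o) (fun _ => t) n) z.toNat) := by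
  set g : ℕ → ℕ → ℝ := fun _ o => if val o ≤ t ∧ cls o then 1 else 0 with hg
  refine TS_congr (h _ (async_Fg (g := g) (g0 := 0) ?_ (by simp)) ?_) (fun x => ind_abs _ _) ?_
  · intro k o
    rw [hg]; dsimp only
    split_ifs <;> simp
  · intro m _
    simp only [Int.toNat_natCast]
    exact Fg_two (g := fun o => if val o ≤ t ∧ cls o then 1 else 0) m
  · intro m
    simp only [Int.toNat_natCast]
    have e := ind_Lv_Fg (fun _ o => val o) (fun _ o => cls o) t m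
    by_cases hm : m % 2 = 1
    · rw [if_pos (by omega), hg, ← e]
      exact ind_congr (by simp [hm])
    · rw [if_neg (by omega)]
      symm
      apply ind_neg
      rintro ⟨h1, _⟩
      exact hm h1

open Classical in
theorem ts_fin {c K : ℝ} (h : ∀ F : ℤ → ℝ, ASync 1 F → TS c K F) :
    TS c K (fun z => ind (fun n => True ∧ ∃ k, H k n) z.toNat) := by
  refine TS_congr (ts_lv h (fun _ _ => 0) (fun _ _ => True) 0) (fun x => ind_abs _ _) ?_
  intro m
  simp only [Int.toNat_natCast]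
  apply ind_congr
  unfold Lv
  simp

open Classical in
theorem ts_fin_odd {c K : ℝ} (h : ∀ F : ℤ → ℝ, ASync 1 F → (∀ m : ℕ, 1 ≤ m → F ((2 * m : ℕ) : ℤ) = F m) →
    TS c K (fun z => if z % 2 = 1 then F z else 0)) :
    TS c K (fun z => ind (fun n => n % 2 = 1 ∧ ∃ k, H k n) z.toNat) := by
  refine TS_congr (ts_lv_odd h (fun _ => 0) (fun _ => True) 0) (fun x => ind_abs _ _) ?_
  intro m
  simp only [Int.toNat_natCast]
  apply ind_congr
  unfold Lv
  simp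

theorem th_eq (a w x : ℝ) (n : ℕ) : th a (w * √ (2 / Real.log (4 / 3) ^ 3)) x n =
    a * Real.log n + x * (w * Real.sqrt (2 * Real.log n / Real.log (4 / 3) ^ 3)) := by
  have hν : 0 < Real.log (4 / 3) := Real.log_pos (by norm_num)
  unfold th
  have e : 2 * Real.log n / Real.log (4 / 3) ^ 3 = 2 / Real.log (4 / 3) ^ 3 * Real.log n := by ring
  rw [e, Real.sqrt_mul (by positivity)]
  ring

/-- the total stopping time -/
def valK (k _ : ℕ) : ℝ := k
/-- the total stopping time for the Collatz map -/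
def valL (k o : ℕ) : ℝ := ((k + o : ℕ) : ℝ)
/-- the number of odd terms -/
def valO (_ o : ℕ) : ℝ := o

/-- residue classes -/
def clsK (m : ℕ) (a b : ℤ) (k o : ℕ) : Prop := (k : ℤ) ≡ a [ZMOD m] ∧ (o : ℤ) ≡ b [ZMOD m]
/-- residue classes -/
def clsL (m : ℕ) (a b : ℤ) (k o : ℕ) : Prop := ((k + o : ℕ) : ℤ) ≡ a [ZMOD m] ∧ (o : ℤ) ≡ b [ZMOD m]
/-- residue classes -/
def clsO (m : ℕ) (b : ℤ) (_ o : ℕ) : Prop := (o : ℤ) ≡ b [ZMOD m]

noncomputable def bK : ℝ := Real.log 3 * √ (2 / Real.log (4 / 3) ^ 3)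
noncomputable def bL : ℝ := Real.log 6 * √ (2 / Real.log (4 / 3) ^ 3)
noncomputable def bO : ℝ := Real.log 2 * √ (2 / Real.log (4 / 3) ^ 3)

theorem nu_pos' : 0 < Real.log (4 / 3) := Real.log_pos (by norm_num)
theorem bK_pos : 0 < bK := by
  have := nu_pos'
  have : 0 < Real.log 3 := Real.log_pos (by norm_num)
  unfold bK; positivity
theorem bL_pos : 0 < bL := by
  have := nu_pos'
  have : 0 < Real.log 6 := Real.log_pos (by norm_num)
  unfold bL; positivity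
theorem bO_pos : 0 < bO := by
  have := nu_pos'
  have : 0 < Real.log 2 := Real.log_pos (by norm_num)
  unfold bO; positivity

theorem Phi01 (x : ℝ) : 0 ≤ Phi x ∧ Phi x ≤ 1 := by
  unfold Pool.Agent.H499R2.ND.Phi
  exact ⟨MeasureTheory.measureReal_nonneg, MeasureTheory.measureReal_le_one⟩

theorem d01 {δ : ℝ} (h0 : 0 ≤ δ) (h1 : δ ≤ 1) {m : ℕ} (hm : 1 ≤ m) (x : ℝ) :
    0 ≤ δ * Phi x / m ^ 2 ∧ δ * Phi x / m ^ 2 ≤ 1 := by
  obtain ⟨h2, h3⟩ := Phi01 x
  have hm1 : (1 : ℝ) ≤ m := by exact_mod_cast hm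
  constructor
  · positivity
  · rw [div_le_one (by positivity)]
    have : (1 : ℝ) ≤ (m : ℝ) ^ 2 := one_le_pow₀ hm1
    nlinarith

theorem H_iff_ex {n : ℕ} : (∃ k, H k n) ↔ ∃ k : ℕ, Tn^[k] n = 1 := by
  classical
  constructor
  · rintro ⟨k, hk⟩; exact ⟨k, hk.1⟩
  · intro h
    exact ⟨Nat.find h, Nat.find_spec h, fun i hi => Nat.find_min h hi⟩

/-- the natural laws of the pair (hitting time, number of odd terms) -/
structure Nat1 (δ : ℝ) : Prop where
  pos : 0 < δ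
  le : δ ≤ 1
  fin : Mn (ind (fun n => True ∧ ∃ k, H k n)) δ
  lawK : ∀ (m : ℕ) (a b : ℤ), 1 ≤ m → ∀ x, Mn (ind (fun n => True ∧ Lv valK (clsK m a b)
    (th (2 / Real.log (4 / 3)) bK x) n)) (δ * Phi x / m ^ 2)

theorem nat1 : ∃ δ : ℝ, Nat1 δ ∧ (δ = 1 ↔ ∀ n : ℕ, 1 ≤ n → ∃ k : ℕ, Tn^[k] n = 1) ∧
    Dn (fun n => ∃ k : ℕ, Tn^[k] n = 1) δ := by
  obtain ⟨δ, h0, h1, h2, h3, h4⟩ := law_one
  refine ⟨δ, ⟨h0, h1, ?_, ?_⟩, h2, h3⟩
  · exact Mn_of_Dn (Dn_iff (fun n _ => by rw [true_and]; exact H_iff_ex.symm) h3)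
  · intro m a b hm x
    have h5 := (h4 m a b hm).2 x
    rw [← phi_cdf] at h5
    refine Mn_of_Dn (Dn_iff (fun n _ => ?_) h5)
    rw [true_and]
    unfold Lv valK clsK bK
    refine exists_congr fun k => ?_
    rw [th_eq]
    constructor
    · rintro ⟨g1, g2, g3⟩; exact ⟨g2, g1, g3⟩
    · rintro ⟨g1, g2, g3⟩; exact ⟨g2, g1, g3⟩

theorem Law_of {c K : ℝ} (hc : 1 < c) (hc' : c < 101 / 100) (hK : 0 ≤ K) (h : ∀ F : ℤ → ℝ, ASync 1 F → TS c K F)
    {δ A b : ℝ} (hA : 0 ≤ A) (hb : 0 < b) (h0 : 0 ≤ δ) (h1 : δ ≤ 1) {val : ℕ → ℕ → ℝ}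
    (hfin : Mn (ind (fun n => True ∧ ∃ k, H k n)) δ)
    (hlaw : ∀ x, Mn (ind (fun n => True ∧ Lv val (fun _ _ => True) (th A b x) n)) (δ * Phi x)) :
    Law (ps c) (fun _ => True) val A b δ 1 := by
  refine ⟨?_, ps_set hc hc' hK (ts_fin h) (by rw [abs_of_nonneg h0]; exact h1) hfin, fun x => ?_⟩
  · have e : ind (fun _ : ℕ => True) = fun _ => (1 : ℝ) := by
      funext n; exact ind_pos trivial
    rw [e]; exact MnS_const _ _
  · refine ps_law hc hc' hK (ts_lv h val _) hA hb (Phi_continuous.const_mul δ) (fun y => ?_) hlaw x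
    obtain ⟨h2, h3⟩ := Phi01 y
    exact ⟨by positivity, by nlinarith⟩

/-- the laws along the sequence -/
theorem psK {c K : ℝ} (hc : 1 < c) (hc' : c < 101 / 100) (hK : 0 ≤ K) (h : ∀ F : ℤ → ℝ, ASync 1 F → TS c K F)
    {δ : ℝ} (hδ : Nat1 δ) : Law (ps c) (fun _ => True) valK (2 / Real.log (4 / 3)) bK δ 1 ∧
    ∀ (m : ℕ) (a b : ℤ), 1 ≤ m → ∀ x, MnS (ps c) (ind (fun n => True ∧ Lv valK (clsK m a b)
      (th (2 / Real.log (4 / 3)) bK x) n)) (δ * Phi x / m ^ 2) := by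
  have hν := nu_pos'
  constructor
  · refine Law_of hc hc' hK h (by positivity) bK_pos hδ.pos.le hδ.le hδ.fin fun x => ?_
    have h1 := hδ.lawK 1 0 0 le_rfl x
    rw [Nat.cast_one, one_pow, div_one] at h1
    have e : ind (fun n => True ∧ Lv valK (clsK 1 0 0) (th (2 / Real.log (4 / 3)) bK x) n) =
        ind (fun n => True ∧ Lv valK (fun _ _ => True) (th (2 / Real.log (4 / 3)) bK x) n) := by
      funext n
      apply ind_congr
      refine and_congr_right fun _ => exists_congr fun k => and_congr_right fun _ => and_congr_right fun _ => ?_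
      unfold clsK
      simp [Int.ModEq]
    rw [← e]; exact h1
  · intro m a b hm x
    refine ps_law hc hc' hK (ts_lv h valK _) (by positivity) bK_pos ?_ (fun y => d01 hδ.pos.le hδ.le hm y)
      (fun y => hδ.lawK m a b hm y) x
    exact (Phi_continuous.const_mul δ).div_const _

end Pool.Agent.Y965.PL
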