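import Pool.Agent.TH977.LL.Typ
import Pool.Agent.TH977.LL.Main

set_option autoImplicit false

/-!
Local law of the total stopping time: how many numbers below `x` have total stopping time exactly `k`.

In the central range `|k - 2 log x / log (4/3)| ≤ B √(log x)` the number of the `n < x` with total
stopping time exactly `k` is of the order `x / √(log x)`, already among the odd `n ≥ x / 16`; for all
other `k` it is at most of this order. Moreover for every `k` the odd `n` of this kind are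
equidistributed in the residue classes modulo `3 ^ i`, with an error below every power of `log x`,
uniformly for `3 ^ i` up to `exp (log 3 √(log x / 2))`.
-/

namespace Pool.Agent.Y965.PL.Loc

/-- the `3x+1` function -/
def T (n : ℕ) : ℕ := if n % 2 = 0 then n / 2 else (3 * n + 1) / 2

/-- `t` is the total stopping time of `n` -/
def IsTotalStoppingTime (n t : ℕ) : Prop := T^[t] n = 1 ∧ ∀ j < t, T^[j] n ≠ 1

/-- the number of the positive integers `n < x` with total stopping time exactly `k` -/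
noncomputable def total (x : ℝ) (k : ℕ) : ℝ :=
  ({n : ℕ | 1 ≤ n ∧ (n : ℝ) < x ∧ IsTotalStoppingTime n k}.ncard : ℝ)

/-- the number of the odd `n` with `a ≤ n < x` and `n ≡ b` modulo `q` which have total stopping time
exactly `k` -/
noncomputable def odds (a x : ℝ) (q : ℕ) (b : ℤ) (k : ℕ) : ℝ :=
  ({n : ℕ | a ≤ n ∧ (n : ℝ) < x ∧ Odd n ∧ IsTotalStoppingTime n k ∧ (n : ℤ) ≡ b [ZMOD q]}.ncard : ℝ)

open Pool.Agent.H499R2.ND Pool.Agent.TH977.LL

theorem stop_iff_HS {n : ℕ} (hn : Odd n) (k : ℕ) : IsTotalStoppingTime n k ↔ (n : ℤ) ∈ HS 0 1 k := by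
  rw [← hit_iff_HS (x := (n : ℤ)) (by exact_mod_cast hn) k]
  have h : ∀ i : ℕ, (Td 1)^[i] (n : ℤ) = ((T^[i] n : ℕ) : ℤ) := fun i =>
    Pool.Agent.H499R2.LT.Td_nat i n
  unfold IsTotalStoppingTime
  simp only [h]
  constructor
  · rintro ⟨h1, h2⟩
    exact ⟨by rw [h1]; rfl, fun i hi hcon => h2 i hi (by exact_mod_cast hcon)⟩
  · rintro ⟨h1, h2⟩
    exact ⟨by exact_mod_cast h1, fun i hi hcon => h2 i hi (by rw [hcon]; rfl)⟩

theorem T_two (n : ℕ) : T (2 * n) = n := by
  unfold T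
  rw [if_pos (by omega)]
  omega

theorem stop_two {n k : ℕ} : IsTotalStoppingTime (2 * n) k ↔ ∃ k', k = k' + 1 ∧ IsTotalStoppingTime n k' := by
  constructor
  · rintro ⟨h1, h2⟩
    rcases Nat.eq_zero_or_pos k with h0 | h0
    · subst h0
      have : 2 * n = 1 := h1
      omega
    · obtain ⟨k', rfl⟩ : ∃ k', k = k' + 1 := ⟨k - 1, by omega⟩
      refine ⟨k', rfl, ?_, ?_⟩
      · rw [Function.iterate_succ_apply, T_two] at h1
        exact h1
      · intro j hj hcon
        apply h2 (j + 1) (by omega)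
        rw [Function.iterate_succ_apply, T_two]
        exact hcon
  · rintro ⟨k', rfl, h1, h2⟩
    refine ⟨by rw [Function.iterate_succ_apply, T_two]; exact h1, ?_⟩
    intro j hj
    rcases Nat.eq_zero_or_pos j with h0 | h0
    · subst h0
      intro hcon
      have : 2 * n = 1 := hcon
      omega
    · obtain ⟨j', rfl⟩ : ∃ j', j = j' + 1 := ⟨j - 1, by omega⟩
      rw [Function.iterate_succ_apply, T_two]
      exact h2 j' (by omega)

/-- the counts of odd numbers in terms of the level sets -/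
theorem odds_eq {a x : ℝ} (ha : 0 ≤ a) (i : ℕ) (b : ℤ) (k : ℕ) :
    odds a x (3 ^ i) b k = ((cls (HS 0 1 k) a x i 1 b).card : ℝ) := by
  unfold odds
  congr 1
  have e : {n : ℕ | a ≤ n ∧ (n : ℝ) < x ∧ Odd n ∧ IsTotalStoppingTime n k ∧ (n : ℤ) ≡ b [ZMOD (3 ^ i : ℕ)]} =
      (fun x : ℤ => x.toNat) '' (cls (HS 0 1 k) a x i 1 b : Set ℤ) := by
    ext n
    rw [Set.mem_image]
    constructor
    · rintro ⟨h1, h2, h3, h4, h5⟩
      refine ⟨(n : ℤ), ?_, by simp⟩
      rw [Finset.mem_coe, mem_cls]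
      refine ⟨⟨by exact_mod_cast h1, by exact_mod_cast h2⟩, by exact_mod_cast h3,
        (stop_iff_HS h3 k).1 h4, ?_⟩
      rw [one_mul]
      have := h5.symm.dvd
      push_cast at this
      exact this
    · rintro ⟨y, hy, rfl⟩
      rw [Finset.mem_coe, mem_cls] at hy
      obtain ⟨⟨h1, h2⟩, h3, h4, h5⟩ := hy
      have hy0 : (0 : ℤ) ≤ y := by
        have : (0 : ℝ) ≤ y := by linarith
        exact_mod_cast this
      obtain ⟨n, rfl⟩ := Int.eq_ofNat_of_zero_le hy0
      have hn : Odd n := by exact_mod_cast h3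
      simp only [Int.toNat_natCast]
      refine ⟨by exact_mod_cast h1, by exact_mod_cast h2, hn, (stop_iff_HS hn k).2 h4, ?_⟩
      rw [one_mul] at h5
      have : ((3 ^ i : ℕ) : ℤ) ∣ (n : ℤ) - b := by push_cast; exact h5
      exact (Int.modEq_iff_dvd.2 this).symm
  rw [e, Set.InjOn.ncard_image, Set.ncard_coe_finset]
  intro y hy z hz hyz
  rw [Finset.mem_coe, mem_cls] at hy hz
  have hy0 : (0 : ℤ) ≤ y := by
    have : (0 : ℝ) ≤ y := by linarith [hy.1.1]
    exact_mod_cast this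
  have hz0 : (0 : ℤ) ≤ z := by
    have : (0 : ℝ) ≤ z := by linarith [hz.1.1]
    exact_mod_cast this
  simp only at hyz
  omega

/-- the numbers `n < x` with total stopping time `j` -/
def V (x : ℝ) (j : ℤ) : Set ℕ := {n : ℕ | 1 ≤ n ∧ (n : ℝ) < x ∧ ∃ k : ℕ, (k : ℤ) = j ∧ IsTotalStoppingTime n k}

theorem fin_V (x : ℝ) : {n : ℕ | (n : ℝ) < x}.Finite := by
  refine (Set.finite_Iic ⌈x⌉₊).subset ?_
  intro n hn
  rw [Set.mem_Iic]
  have h : (n : ℝ) < x := hn
  have : (n : ℝ) ≤ ⌈x⌉₊ := h.le.trans (Nat.le_ceil x)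
  exact_mod_cast this

theorem V_step {x : ℝ} (j : ℤ) : (V x j).ncard ≤ (cls (HS 0 1 j) 1 x 0 1 0).card + (V (x / 2) (j - 1)).ncard := by
  have hsub : V x j ⊆ (fun y : ℤ => y.toNat) '' (cls (HS 0 1 j) 1 x 0 1 0 : Set ℤ) ∪
      (fun n => 2 * n) '' V (x / 2) (j - 1) := by
    rintro n ⟨h1, h2, k, h3, h4⟩
    rcases Nat.even_or_odd n with h5 | h5
    · right
      obtain ⟨m, hm⟩ := h5
      have hm' : n = 2 * m := by omega
      rw [hm'] at h4
      obtain ⟨k', hk', h6⟩ := stop_two.1 h4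
      refine ⟨m, ⟨by omega, ?_, k', ?_, h6⟩, hm'.symm⟩
      · rw [lt_div_iff₀ (by norm_num)]
        have : (n : ℝ) = 2 * m := by exact_mod_cast hm'
        linarith
      · rw [← h3, hk']
        push_cast
        ring
    · left
      refine ⟨(n : ℤ), ?_, by simp⟩
      rw [Finset.mem_coe, mem_cls]
      refine ⟨⟨by exact_mod_cast h1, by exact_mod_cast h2⟩, by exact_mod_cast h5, ?_, by simp⟩
      rw [← h3]
      exact (stop_iff_HS h5 k).1 h4
  have hfin : (V (x / 2) (j - 1)).Finite := (fin_V (x / 2)).subset fun n hn => hn.2.1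
  refine (Set.ncard_le_ncard hsub ((Finset.finite_toSet _).image _ |>.union (hfin.image _))).trans ?_
  refine (Set.ncard_union_le _ _).trans ?_
  refine Nat.add_le_add ?_ (Set.ncard_image_le hfin)
  refine (Set.ncard_image_le (Finset.finite_toSet _)).trans (le_of_eq ?_)
  rw [Set.ncard_coe_finset]

theorem V_triv {x : ℝ} (hx : 0 ≤ x) (j : ℤ) : ((V x j).ncard : ℝ) ≤ x := by
  have h1 : V x j ⊆ (Finset.Icc 1 ⌊x⌋₊ : Set ℕ) := by
    rintro n ⟨h1, h2, _⟩
    rw [Finset.coe_Icc, Set.mem_Icc]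
    exact ⟨h1, Nat.le_floor h2.le⟩
  have h2 := Set.ncard_le_ncard h1 (Finset.finite_toSet _)
  rw [Set.ncard_coe_finset, Nat.card_Icc, Nat.add_sub_cancel] at h2
  have h3 : ((V x j).ncard : ℝ) ≤ (⌊x⌋₊ : ℝ) := by exact_mod_cast h2
  exact h3.trans (Nat.floor_le hx)

theorem V_sum {x : ℝ} (hx : 0 ≤ x) (j : ℤ) (L : ℕ) : ((V x j).ncard : ℝ) ≤
    ∑ a ∈ Finset.range L, ((cls (HS 0 1 (j - a)) 1 (x / 2 ^ a) 0 1 0).card : ℝ) + x / 2 ^ L := by
  have key : ∀ L : ℕ, ((V x j).ncard : ℝ) ≤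
      ∑ a ∈ Finset.range L, ((cls (HS 0 1 (j - a)) 1 (x / 2 ^ a) 0 1 0).card : ℝ) +
        ((V (x / 2 ^ L) (j - L)).ncard : ℝ) := by
    intro L
    induction L with
    | zero => simp
    | succ L ih =>
      rw [Finset.sum_range_succ]
      have h1 : ((V (x / 2 ^ L) (j - L)).ncard : ℝ) ≤
          ((cls (HS 0 1 (j - L)) 1 (x / 2 ^ L) 0 1 0).card : ℝ) +
            ((V (x / 2 ^ L / 2) (j - L - 1)).ncard : ℝ) := by
        exact_mod_cast V_step (x := x / 2 ^ L) (j - L)
      have e1 : x / 2 ^ L / 2 = x / 2 ^ (L + 1) := by rw [pow_succ, div_div]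
      have e2 : j - (L : ℤ) - 1 = j - ((L + 1 : ℕ) : ℤ) := by push_cast; ring
      rw [e1, e2] at h1
      linarith
  refine (key L).trans ?_
  have := V_triv (x := x / 2 ^ L) (by positivity) (j - L)
  linarith

theorem total_eq (x : ℝ) (k : ℕ) : total x k = ((V x k).ncard : ℝ) := by
  unfold total V
  congr 2
  ext n
  constructor
  · rintro ⟨h1, h2, h3⟩
    exact ⟨h1, h2, k, rfl, h3⟩
  · rintro ⟨h1, h2, k', h3, h4⟩
    have : k' = k := by exact_mod_cast h3
    rw [this] at h4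
    exact ⟨h1, h2, h4⟩

/-- THE LOCAL LAW OF THE TOTAL STOPPING TIME `σ`.
(1) For all `x ≥ 2` and all `k` at most `C x / √(log x)` of the positive integers `n < x` have
`σ(n) = k`.
(2) If `|k - 2 log x / log (4/3)| ≤ B √(log x)` and `x ≥ x₀(B)`, then `σ(n) = k` for at least
`c(B) x / √(log x)` of the odd `n` with `x / 16 ≤ n < x`.
(3) For every `R`, all `x ≥ 2`, all `k`, all `b`, `b'` and all `i` with `i ^ 2 ≤ (log x) / 2` the
numbers of the odd `n < x` with `σ(n) = k` in the classes of `b` and of `b'` modulo `3 ^ i` differ by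
at most `C(R) x / (3^i (log x)^R)`. -/
theorem loc :
    (∃ C : ℝ, 0 < C ∧ ∀ x : ℝ, 2 ≤ x → ∀ k : ℕ, total x k ≤ C * x / Real.sqrt (Real.log x)) ∧
    (∀ B : ℝ, 0 < B → ∃ c x₀ : ℝ, 0 < c ∧ 2 ≤ x₀ ∧ ∀ x : ℝ, x₀ ≤ x → ∀ k : ℕ,
      |(k : ℝ) - 2 / Real.log (4 / 3) * Real.log x| ≤ B * Real.sqrt (Real.log x) →
      c * x / Real.sqrt (Real.log x) ≤ odds (x / 16) x 1 0 k) ∧
    (∀ R : ℕ, ∃ C : ℝ, 0 < C ∧ ∀ x : ℝ, 2 ≤ x → ∀ i k : ℕ, (i : ℝ) ^ 2 ≤ Real.log x / 2 → ∀ b b' : ℤ,
      |odds 1 x (3 ^ i) b k - odds 1 x (3 ^ i) b' k| ≤ C * x / (3 ^ i * Real.log x ^ R)) := by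
  refine ⟨?_, ?_, ?_⟩
  · obtain ⟨C, hC, h⟩ := cnt_upp (al := 0) (be := 1) (by norm_num)
    refine ⟨4 * C + 52, by positivity, fun x hx k => ?_⟩
    have hx0 : 0 < x := by linarith
    have hl0 : 0 < Real.log x := Real.log_pos (by linarith)
    set r := Real.sqrt (Real.log x) with hr
    have hr0 : 0 < r := Real.sqrt_pos.2 hl0
    have hrr : r ^ 2 = Real.log x := Real.sq_sqrt hl0.le
    rw [total_eq, le_div_iff₀ hr0]
    rcases lt_or_ge (Real.log x) 2500 with hs | hs
    · have h1 := V_triv hx0.le (k : ℤ)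
      have h2 : r ≤ 50 := by
        rw [hr, Real.sqrt_le_left (by norm_num)]
        linarith
      have h3 : ((V x k).ncard : ℝ) * r ≤ x * 50 := mul_le_mul h1 h2 hr0.le hx0.le
      have : 0 ≤ C * x := by positivity
      linarith
    · obtain ⟨L, w1, w2, w3, w4⟩ := windows hx0 hs
      have h1 := V_sum hx0.le (k : ℤ) L
      have h2 : ∀ a ∈ Finset.range L, ((cls (HS 0 1 ((k : ℤ) - a)) 1 (x / 2 ^ a) 0 1 0).card : ℝ) ≤
          4 * C / r * (x / 2 ^ (a + 1)) := by
        intro a ha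
        have hw := w4 a ha
        have hA : 0 < x / 2 ^ (a + 1) := by positivity
        have e : x / 2 ^ a = 2 * (x / 2 ^ (a + 1)) := by
          rw [pow_succ]; field_simp
        have hA1 : 1 ≤ x / 2 ^ (a + 1) := by
          rw [← Real.log_nonneg_iff hA]; linarith
        have hlog : Real.log x / 2 ≤ Real.log (x / 2 ^ a) := by
          refine hw.trans (Real.log_le_log hA ?_)
          rw [e]; linarith
        have g1 := h (x / 2 ^ a) (by rw [e]; linarith) ((k : ℤ) - a)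
        refine g1.trans ?_
        have hsq : r / 2 ≤ Real.sqrt (Real.log (x / 2 ^ a)) := by
          apply Real.le_sqrt_of_sq_le
          rw [div_pow, hrr]
          linarith
        have g2 : C * (x / 2 ^ a) / Real.sqrt (Real.log (x / 2 ^ a)) ≤ C * (x / 2 ^ a) / (r / 2) := by
          apply div_le_div_of_nonneg_left (by positivity) (by positivity) hsq
        refine g2.trans (le_of_eq ?_)
        rw [e]
        field_simp
        norm_num
      have h3 := Finset.sum_le_sum h2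
      rw [← Finset.mul_sum] at h3
      have h4 : 4 * C / r * ∑ l ∈ Finset.range L, x / 2 ^ (l + 1) ≤ 4 * C / r * x :=
        mul_le_mul_of_nonneg_left (geo x hx0.le L) (by positivity)
      have hx1 : 1 ≤ x := by linarith
      have h7 : r ≤ Real.sqrt x := Real.sqrt_le_sqrt (by linarith [Real.log_le_sub_one_of_pos hx0])
      have h8 : 2 * Real.sqrt x * r ≤ 2 * x := by
        have h9 : Real.sqrt x * Real.sqrt x = x := Real.mul_self_sqrt hx0.le
        nlinarith [Real.sqrt_nonneg x]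
      have h5 : ((V x k).ncard : ℝ) ≤ 4 * C / r * x + 2 * Real.sqrt x := by linarith
      have h6 := mul_le_mul_of_nonneg_right h5 hr0.le
      have h10 : (4 * C / r * x + 2 * Real.sqrt x) * r = 4 * C * x + 2 * Real.sqrt x * r := by
        field_simp
      rw [h10] at h6
      linarith
  · intro B hB
    obtain ⟨c0, B2, hc0, hB2, E0, hE0⟩ := typ 0 1
    obtain ⟨c, x0, hc, hx02, h⟩ := cnt_low (al := 0) (be := 1) (Or.inr (Or.inl ⟨rfl, rfl⟩)) hc0 hB2 hE0 hB
    refine ⟨c, x0, hc, hx02, fun x hx k hk => ?_⟩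
    have h2 := odds_eq (a := x / 16) (x := x) (by linarith) 0 0 k
    rw [pow_zero] at h2
    rw [h2]
    apply h x hx k
    have e : lam 0 1 * Real.log x = 2 / Real.log (4 / 3) * Real.log x := by
      have : Real.log (4 / 3) = hh := Pool.Agent.H499R2.HL.nu_eq
      rw [this]
      unfold lam
      push_cast
      ring
    rw [e]
    exact_mod_cast hk
  · intro R
    obtain ⟨C, hC, h⟩ := cnt_equi 0 1 R
    refine ⟨C, hC, fun x hx i k hi b b' => ?_⟩
    have h1 := h x hx i hi k b b'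
    have h2 := h x hx i hi k b' b
    rw [odds_eq (by norm_num), odds_eq (by norm_num), abs_le]
    constructor <;> linarith

end Pool.Agent.Y965.PL.Loc
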