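import Pool.Agent.Y965.PL.Inp
import Pool.Agent.Y965.PL.Loc

/-! The local law of the total stopping time along `⌊n ^ c⌋`. -/

set_option autoImplicit false

namespace Pool.Agent.Y965.PL

open Finset Filter Topology Pool.Agent.Y965.PS
open Pool.Agent.H499R2.HL (H H_unique)
open Pool.Agent.H499R2.LT (odn)
open Pool.Agent.H499R2.ND (Tn Dn)

theorem Loc_H (n k : ℕ) : Loc.IsTotalStoppingTime n k ↔ H k n := by
  have e : Loc.T = Tn := by funext a; rfl
  unfold Loc.IsTotalStoppingTime H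
  rw [e]

theorem total_eq (k m : ℕ) : Loc.total ((m : ℝ) + 1) k = ∑ j ∈ Icc 1 m, ind (fun n => H k n) j := by
  classical
  unfold Loc.total ind
  rw [sum_boole]
  have e : {n : ℕ | 1 ≤ n ∧ (n : ℝ) < (m : ℝ) + 1 ∧ Loc.IsTotalStoppingTime n k} =
      ((Icc 1 m).filter (fun n => H k n) : Finset ℕ) := by
    ext n
    simp only [Set.mem_ofPred_eq, coe_filter, mem_Icc, Loc_H]
    constructor
    · rintro ⟨h1, h2, h3⟩
      exact ⟨⟨h1, by have : n < m + 1 := by exact_mod_cast h2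
                     omega⟩, h3⟩
    · rintro ⟨⟨h1, h2⟩, h3⟩
      exact ⟨h1, by exact_mod_cast (by omega : n < m + 1), h3⟩
  rw [e, Set.ncard_coe_finset]

theorem sqrt_log_le {X : ℝ} (hX : 1 ≤ X) : √ (Real.log X) ≤ 90 * X ^ (1 / 8000 : ℝ) := by
  have h1 := Real.log_le_rpow_div (by linarith : 0 ≤ X) (show (0 : ℝ) < 1 / 4000 by norm_num)
  have h2 : (X ^ (1 / 8000 : ℝ)) ^ 2 = X ^ (1 / 4000 : ℝ) := by
    rw [← Real.rpow_natCast, ← Real.rpow_mul (by linarith)]
    norm_num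
  have h3 : 0 ≤ X ^ (1 / 8000 : ℝ) := by positivity
  apply Real.sqrt_le_iff.2
  refine ⟨by positivity, ?_⟩
  rw [mul_pow, h2]
  have h4 : 0 ≤ X ^ (1 / 4000 : ℝ) := by positivity
  have h5 : X ^ (1 / 4000 : ℝ) / (1 / 4000) = 4000 * X ^ (1 / 4000 : ℝ) := by ring
  linarith

theorem pow_sqrt {X : ℝ} (hX : 1 ≤ X) : X ^ (1 - 1 / 4000 : ℝ) * √ (Real.log X) ≤ 90 * X ^ (1 - 1 / 8000 : ℝ) := by
  have h1 := sqrt_log_le hX
  have h2 : X ^ (1 - 1 / 4000 : ℝ) * X ^ (1 / 8000 : ℝ) = X ^ (1 - 1 / 8000 : ℝ) := by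
    rw [← Real.rpow_add (by linarith)]; norm_num
  calc X ^ (1 - 1 / 4000 : ℝ) * √ (Real.log X) ≤ X ^ (1 - 1 / 4000 : ℝ) * (90 * X ^ (1 / 8000 : ℝ)) :=
        mul_le_mul_of_nonneg_left h1 (by positivity)
    _ = 90 * (X ^ (1 - 1 / 4000 : ℝ) * X ^ (1 / 8000 : ℝ)) := by ring
    _ = _ := by rw [h2]

theorem pow_sqrt' {X : ℝ} (hX : 1 ≤ X) : X ^ (1 - 1 / 4000 : ℝ) * √ (Real.log X) ≤ 90 * X := by
  refine (pow_sqrt hX).trans ?_
  have : X ^ (1 - 1 / 8000 : ℝ) ≤ X ^ (1 : ℝ) := Real.rpow_le_rpow_of_exponent_le hX (by norm_num)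
  rw [Real.rpow_one] at this
  linarith

theorem ell_lower {γ : ℝ} (hγ0 : 0 < γ) (hγ1 : γ < 1) {N : ℕ} (hN : 1 ≤ N) :
    γ / 2 * (N : ℝ) ^ γ ≤ ell γ N * N := by
  have hN0 : (0 : ℝ) < N := by exact_mod_cast hN
  have hN1 : (1 : ℝ) ≤ N := by exact_mod_cast hN
  set t : ℝ := 1 / N with ht
  have ht0 : 0 < t := by positivity
  have ht1 : t ≤ 1 := by rw [ht, div_le_one hN0]; exact hN1
  have h1 : ell γ N = (N : ℝ) ^ γ * ((1 + t) ^ γ - 1) := by
    unfold ell
    have e : (N : ℝ) + 1 = N * (1 + t) := by rw [ht]; field_simp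
    rw [e, Real.mul_rpow hN0.le (by positivity)]; ring
  have h2 : (1 + t) ^ (1 - γ) ≤ 1 + (1 - γ) * t :=
    rpow_one_add_le_one_add_mul_self (by linarith) (by linarith) (by linarith)
  have h3 : (1 + t) ^ γ * (1 + t) ^ (1 - γ) = 1 + t := by
    rw [← Real.rpow_add (by positivity)]; norm_num
  have h4 : γ / 2 * t ≤ (1 + t) ^ γ - 1 := by
    by_contra hcon
    push Not at hcon
    have h5 : (1 + t) ^ γ < 1 + γ / 2 * t := by linarith
    have h6 : 0 < (1 + t) ^ (1 - γ) := by positivity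
    have h7 : (1 + t) ^ γ * (1 + t) ^ (1 - γ) < (1 + γ / 2 * t) * (1 + (1 - γ) * t) :=
      mul_lt_mul h5 h2 h6 (by positivity)
    rw [h3] at h7
    nlinarith [mul_pos ht0 hγ0, mul_nonneg ht0.le (by linarith : 0 ≤ 1 - t), mul_pos (mul_pos ht0 hγ0) (by linarith : 0 < 1 - γ)]
  rw [h1]
  have h5 : (N : ℝ) * t = 1 := by rw [ht]; field_simp
  have h6 : 0 ≤ (N : ℝ) ^ γ := by positivity
  calc γ / 2 * (N : ℝ) ^ γ = (N : ℝ) ^ γ * (γ / 2 * t) * N := by
        rw [mul_assoc, mul_assoc (γ / 2), mul_comm t, h5]; ring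
    _ ≤ (N : ℝ) ^ γ * ((1 + t) ^ γ - 1) * N := by gcongr

/-- THE LOCAL LAW ALONG THE SEQUENCE -/
theorem loc_ps {c K : ℝ} (hc : 1 < c) (hc' : c < 101 / 100) (hK : 0 ≤ K) (hT : ∀ F : ℤ → ℝ, ASync 1 F → TS c K F) :
    (∃ C : ℝ, 0 < C ∧ ∀ X : ℕ, 2 ≤ X → ∀ k : ℕ,
      ∑ n ∈ Icc 1 X, ind (fun n => H k n) (ps c n) ≤ C * X / √ (Real.log X)) ∧
    (∀ B : ℝ, 0 < B → ∃ C : ℝ, 0 < C ∧ ∃ X₀ : ℕ, ∀ X : ℕ, X₀ ≤ X → ∀ k : ℕ,
      |(k : ℝ) - 2 / Real.log (4 / 3) * (c * Real.log X)| ≤ B * √ (Real.log X) →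
      C * X / √ (Real.log X) ≤ ∑ n ∈ Icc 1 X, ind (fun n => H k n) (ps c n)) := by
  classical
  have hc0 : 0 < c := by linarith
  set γ : ℝ := 1 / c with hγ
  have hγ0 : 0 < γ := by positivity
  have hγ1 : γ < 1 := by rw [hγ, div_lt_one hc0]; exact hc
  have hcγ : ∀ y : ℝ, 0 ≤ y → (y ^ c) ^ γ = y := by
    intro y hy
    rw [← Real.rpow_mul hy, hγ, mul_one_div, div_self hc0.ne', Real.rpow_one]
  obtain ⟨⟨C, hC, hU⟩, hLo, -⟩ := Loc.loc
  -- the transfer
  have tr : ∀ X : ℕ, 1 ≤ X → ∀ k : ℕ, |∑ n ∈ Icc 1 X, ind (fun n => H k n) (ps c n) -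
      ∑ m ∈ Icc 1 (ps c X), ind (fun n => H k n) m * ell γ m| ≤ K * (X : ℝ) ^ (1 - 1 / 4000 : ℝ) := by
    intro X hX k
    have h1 := TS_congr (G := fun z => ind (fun n => H k n) z.toNat)
      (hT _ (async_Fg (g := fun k' _ => if k' = k then 1 else 0) (g0 := 0) (fun _ _ => by split_ifs <;> simp) (by simp)))
      (fun x => ind_abs _ _) (fun m => by
        simp only [Int.toNat_natCast]
        by_cases h : ∃ k', H k' m
        · obtain ⟨k', hk'⟩ := h
          rw [Fg_H hk']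
          by_cases e : k' = k
          · subst e; rw [if_pos rfl]; exact (ind_pos hk').symm
          · rw [if_neg e]; symm; apply ind_neg; intro h2; exact e (H_unique hk' h2)
        · rw [Fg_not h]; symm; apply ind_neg; intro h2; exact h ⟨k, h2⟩)
    have h2 := h1.2 X hX
    have e1 : ∑ n ∈ Icc 1 X, (fun z : ℤ => ind (fun n => H k n) z.toNat) ⌊(n : ℝ) ^ c⌋ =
        ∑ n ∈ Icc 1 X, ind (fun n => H k n) (ps c n) := by
      apply sum_congr rfl
      intro n _
      have e : (⌊(n : ℝ) ^ c⌋ : ℤ) = ((⌊(n : ℝ) ^ c⌋₊ : ℕ) : ℤ) :=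
        (Int.natCast_floor_eq_floor (by positivity)).symm
      dsimp only
      rw [e, Int.toNat_natCast]; rfl
    rw [e1] at h2
    simp only [Int.toNat_natCast] at h2
    exact h2
  constructor
  · refine ⟨3 * C + 92 * (C + 1) + 90 * K + 100, by positivity, fun X hX k => ?_⟩
    have hX1 : 1 ≤ X := by omega
    have hXR : (2 : ℝ) ≤ X := by exact_mod_cast hX
    have hX0 : (0 : ℝ) < X := by linarith
    set N := ps c X with hN
    have hNX : X ≤ N := le_ps hc.le X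
    have hN2 : 2 ≤ N := by omega
    have hNR : (2 : ℝ) ≤ N := by exact_mod_cast hN2
    have hNc : (N : ℝ) ≤ (X : ℝ) ^ c := Nat.floor_le (by positivity)
    have hlX : 0 < Real.log X := Real.log_pos (by linarith)
    have hlN : Real.log X ≤ Real.log N := Real.log_le_log hX0 (by exact_mod_cast hNX)
    set sX := √ (Real.log X) with hsX
    have hsX0 : 0 < sX := Real.sqrt_pos.2 hlX
    -- the sums over all integers
    have hab : ∀ m : ℕ, |∑ j ∈ Icc 1 m, ind (fun n => H k n) j - 0 * m| ≤ 2 * C / sX * m + (√ N + 2 * C / sX) := by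
      intro m
      rw [zero_mul, sub_zero, abs_of_nonneg (sum_nonneg fun _ _ => ind_nonneg _ _)]
      have h0 : 0 ≤ 2 * C / sX := by positivity
      have hm0 : (0 : ℝ) ≤ m := Nat.cast_nonneg m
      rcases le_or_gt (m : ℝ) (√ N) with hm | hm
      · have h1 : ∑ j ∈ Icc 1 m, ind (fun n => H k n) j ≤ m := by
          calc ∑ j ∈ Icc 1 m, ind (fun n => H k n) j ≤ ∑ j ∈ Icc 1 m, (1 : ℝ) := sum_le_sum fun j _ => ind_le_one _ _
            _ = m := by simp
        have : 0 ≤ 2 * C / sX * m := by positivity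
        linarith
      · have hsN : 1 ≤ √ (N : ℝ) := by rw [Real.one_le_sqrt]; linarith
        have h1 := hU ((m : ℝ) + 1) (by linarith) k
        rw [total_eq] at h1
        have h2 : Real.log X / 4 ≤ Real.log ((m : ℝ) + 1) := by
          have h3 : Real.log (√ N) ≤ Real.log ((m : ℝ) + 1) := Real.log_le_log (by linarith) (by linarith)
          rw [Real.log_sqrt (by linarith)] at h3
          linarith
        have h3 : sX / 2 ≤ √ (Real.log ((m : ℝ) + 1)) := by
          have h4 := Real.sqrt_le_sqrt h2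
          have e4 : √ (Real.log X / 4) = sX / 2 := by
            rw [Real.sqrt_div hlX.le, show (4 : ℝ) = 2 ^ 2 by norm_num, Real.sqrt_sq (by norm_num)]
          rwa [e4] at h4
        have h4 : C * ((m : ℝ) + 1) / √ (Real.log ((m : ℝ) + 1)) ≤ C * ((m : ℝ) + 1) / (sX / 2) :=
          div_le_div_of_nonneg_left (by positivity) (by positivity) h3
        have e5 : C * ((m : ℝ) + 1) / (sX / 2) = 2 * C / sX * m + 2 * C / sX := by field_simp
        have := Real.sqrt_nonneg (N : ℝ)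
        linarith
    have h1 := (abs_le.1 (abel hγ0 hγ1 (by positivity) (by positivity) hab N)).2
    rw [zero_mul, sub_zero] at h1
    have h2 := (abs_le.1 (tr X hX1 k)).2
    have h5 : ((N : ℝ) + 1) ^ γ ≤ X + 1 := by
      have h7 := pow_gap hc.le hX0.le
      rw [← hcγ (X + 1) (by positivity)]
      exact Real.rpow_le_rpow (by positivity) (by linarith) hγ0.le
    have h6 : √ (N : ℝ) ≤ (X : ℝ) ^ (1 - 1 / 4000 : ℝ) := by
      calc √ (N : ℝ) ≤ √ ((X : ℝ) ^ c) := Real.sqrt_le_sqrt hNc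
        _ = (X : ℝ) ^ (c * (1 / 2)) := by rw [Real.sqrt_eq_rpow, ← Real.rpow_mul hX0.le]
        _ ≤ _ := Real.rpow_le_rpow_of_exponent_le (by linarith) (by linarith)
    have h7 := pow_sqrt' (X := (X : ℝ)) (by linarith)
    rw [← hsX] at h7
    rw [le_div_iff₀ hsX0]
    set P := (X : ℝ) ^ (1 - 1 / 4000 : ℝ) with hP
    have hP0 : 0 ≤ P := by positivity
    have h8 : ∑ n ∈ Icc 1 X, ind (fun n => H k n) (ps c n) ≤ 2 * C / sX * (X + 1) + P + 2 * C / sX + K * P := by
      have : 2 * C / sX * ((N : ℝ) + 1) ^ γ ≤ 2 * C / sX * (X + 1) := mul_le_mul_of_nonneg_left h5 (by positivity)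
      linarith
    calc (∑ n ∈ Icc 1 X, ind (fun n => H k n) (ps c n)) * sX
        ≤ (2 * C / sX * (X + 1) + P + 2 * C / sX + K * P) * sX := mul_le_mul_of_nonneg_right h8 hsX0.le
      _ = 2 * C * (X + 1) + P * sX + 2 * C + K * (P * sX) := by field_simp
      _ ≤ _ := by nlinarith
  · intro B hB
    have hν := nu_pos'
    obtain ⟨c1, x0, hc1, hx0, hL⟩ := hLo (B + 2 / Real.log (4 / 3)) (by positivity)
    refine ⟨γ * c1 / 16, by positivity, ?_⟩
    -- a power saving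
    have hlim : Tendsto (fun X : ℕ => K * 90 * (X : ℝ) ^ (-(1 / 8000) : ℝ)) atTop (𝓝 0) := by
      have g1 := (tendsto_rpow_neg_atTop (show (0 : ℝ) < 1 / 8000 by norm_num)).comp tendsto_natCast_atTop_atTop
      have g2 := g1.const_mul (K * 90)
      rw [mul_zero] at g2
      exact g2
    obtain ⟨X1, hX1⟩ := (hlim.eventually (gt_mem_nhds (show (0 : ℝ) < γ * c1 / 16 by positivity))).exists_forall_of_atTop
    obtain ⟨X2, hX2⟩ := exists_nat_ge x0
    refine ⟨max (max X1 X2) 3, fun X hX k hk => ?_⟩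
    have hXX1 : X1 ≤ X := (le_max_left _ _).trans ((le_max_left _ _).trans hX)
    have hXX2 : X2 ≤ X := (le_max_right _ _).trans ((le_max_left _ _).trans hX)
    have hX3 : 3 ≤ X := (le_max_right _ _).trans hX
    have hXR : (3 : ℝ) ≤ X := by exact_mod_cast hX3
    have hX0 : (0 : ℝ) < X := by linarith
    set N := ps c X with hN
    have hNX : X ≤ N := le_ps hc.le X
    have hNXR : (X : ℝ) ≤ N := by exact_mod_cast hNX
    have hN0 : (0 : ℝ) < N := by linarith
    have hNc : (N : ℝ) ≤ (X : ℝ) ^ c := Nat.floor_le (by positivity)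
    have hNc' : (X : ℝ) ^ c < N + 1 := Nat.lt_floor_add_one _
    have hlX1 : 1 ≤ Real.log X := by
      rw [Real.le_log_iff_exp_le hX0]
      exact (Real.exp_one_lt_d9.le.trans (by norm_num)).trans hXR
    have hlN : Real.log X ≤ Real.log N := Real.log_le_log hX0 hNXR
    have hlN2 : Real.log N ≤ c * Real.log X := by
      rw [← Real.log_rpow hX0]; exact Real.log_le_log hN0 hNc
    have hlN3 : c * Real.log X - Real.log 2 ≤ Real.log N := by
      rw [← Real.log_rpow hX0, ← Real.log_div (by positivity) (by norm_num)]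
      apply Real.log_le_log (by positivity)
      linarith
    set sX := √ (Real.log X) with hsX
    have hsX1 : 1 ≤ sX := by rw [hsX, Real.one_le_sqrt]; exact hlX1
    set sN := √ (Real.log N) with hsN
    have hsN1 : sX ≤ sN := Real.sqrt_le_sqrt hlN
    have hsN2 : sN ≤ 2 * sX := by
      have h1 : Real.log N ≤ 2 ^ 2 * Real.log X := by nlinarith
      calc sN ≤ √ (2 ^ 2 * Real.log X) := Real.sqrt_le_sqrt h1
        _ = 2 * sX := by rw [Real.sqrt_mul (by norm_num), Real.sqrt_sq (by norm_num)]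
    have hl2 : Real.log 2 ≤ 1 := by linarith [Real.log_two_lt_d9]
    have hl20 : 0 < Real.log 2 := Real.log_pos (by norm_num)
    have h1 := hL (N : ℝ) (by
      have : (X2 : ℝ) ≤ X := by exact_mod_cast hXX2
      linarith) k (by
      rw [← hsN]
      have g1 := abs_le.1 hk
      have g2 : 0 < 2 / Real.log (4 / 3) := by positivity
      have g3 : |2 / Real.log (4 / 3) * (c * Real.log X) - 2 / Real.log (4 / 3) * Real.log N| ≤ 2 / Real.log (4 / 3) := by
        rw [← mul_sub, abs_mul, abs_of_pos g2]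
        have : |c * Real.log X - Real.log N| ≤ 1 := by rw [abs_le]; constructor <;> linarith
        nlinarith
      rw [abs_le] at g3
      have g4 : B * sX ≤ B * sN := mul_le_mul_of_nonneg_left hsN1 hB.le
      have g5 : 2 / Real.log (4 / 3) ≤ 2 / Real.log (4 / 3) * sN := by
        have : 1 ≤ sN := hsX1.trans hsN1
        nlinarith
      rw [abs_le]
      constructor <;> linarith)
    -- lower bound for the sum over all integers
    have h2 : Loc.odds ((N : ℝ) / 16) N 1 0 k ≤ ∑ m ∈ Icc 1 N, ind (fun n => H k n) m := by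
      unfold Loc.odds ind
      rw [sum_boole]
      have hfin : (((Icc 1 N).filter (fun n => H k n) : Finset ℕ) : Set ℕ).Finite := Finset.finite_toSet _
      have hsub : {n : ℕ | (N : ℝ) / 16 ≤ n ∧ (n : ℝ) < N ∧ Odd n ∧ Loc.IsTotalStoppingTime n k ∧ (n : ℤ) ≡ 0 [ZMOD (1 : ℕ)]} ⊆
          (((Icc 1 N).filter (fun n => H k n) : Finset ℕ) : Set ℕ) := by
        rintro n ⟨_, g2, g3, g4, _⟩
        rw [mem_coe, mem_filter, mem_Icc]
        refine ⟨⟨g3.pos, ?_⟩, (Loc_H n k).1 g4⟩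
        have : n < N := by exact_mod_cast g2
        omega
      have h3 := Set.ncard_le_ncard hsub hfin
      rw [Set.ncard_coe_finset] at h3
      exact_mod_cast h3
    have hell : ∀ m : ℕ, 1 ≤ m → m ≤ N → ell γ N ≤ ell γ m := by
      intro m hm1 hm2
      have hgen : ∀ t : ℕ, ell γ (m + t) ≤ ell γ m := by
        intro t
        induction t with
        | zero => rfl
        | succ t ih => exact (ell_anti hγ0 hγ1 (m := m + t) (by omega)).trans ih
      have := hgen (N - m)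
      rwa [Nat.add_sub_cancel' hm2] at this
    have h3 : ell γ N * ∑ m ∈ Icc 1 N, ind (fun n => H k n) m ≤ ∑ m ∈ Icc 1 N, ind (fun n => H k n) m * ell γ m := by
      rw [mul_sum]
      apply sum_le_sum
      intro m hm
      rw [mem_Icc] at hm
      rw [mul_comm]
      exact mul_le_mul_of_nonneg_left (hell m hm.1 hm.2) (ind_nonneg _ _)
    have h4 := (abs_le.1 (tr X (by omega) k)).1
    have h5 := ell_lower hγ0 hγ1 (N := N) (by omega)
    have hellN := ell_nonneg hγ0 N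
    have h6 : (X : ℝ) / 2 ≤ (N : ℝ) ^ γ := by
      have g1 : ((X : ℝ) ^ c / 2) ^ γ ≤ (N : ℝ) ^ γ := Real.rpow_le_rpow (by positivity) (by linarith) hγ0.le
      rw [Real.div_rpow (by positivity) (by norm_num), hcγ X hX0.le] at g1
      have g2 : (2 : ℝ) ^ γ ≤ 2 := by
        calc (2 : ℝ) ^ γ ≤ (2 : ℝ) ^ (1 : ℝ) := Real.rpow_le_rpow_of_exponent_le (by norm_num) hγ1.le
          _ = 2 := Real.rpow_one 2
      have g3 : (X : ℝ) / 2 ≤ X / 2 ^ γ := div_le_div_of_nonneg_left hX0.le (by positivity) g2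
      linarith
    have hsN0 : 0 < sN := by linarith
    have h7 : γ * c1 / 8 * X / sX ≤ ell γ N * ∑ m ∈ Icc 1 N, ind (fun n => H k n) m := by
      calc γ * c1 / 8 * X / sX = γ / 2 * (X / 2) * (c1 / (2 * sX)) := by field_simp; ring
        _ ≤ γ / 2 * (N : ℝ) ^ γ * (c1 / sN) := by gcongr
        _ ≤ ell γ N * N * (c1 / sN) := by gcongr
        _ = ell γ N * (c1 * N / sN) := by ring
        _ ≤ ell γ N * ∑ m ∈ Icc 1 N, ind (fun n => H k n) m :=
          mul_le_mul_of_nonneg_left (h1.trans h2) hellN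
    have h8 : K * (X : ℝ) ^ (1 - 1 / 4000 : ℝ) ≤ γ * c1 / 16 * X / sX := by
      rw [le_div_iff₀ (by linarith)]
      have g1 := pow_sqrt (X := (X : ℝ)) (by linarith)
      rw [← hsX] at g1
      have g2 := (hX1 X hXX1).le
      have e : (X : ℝ) ^ (1 - 1 / 8000 : ℝ) = (X : ℝ) ^ (-(1 / 8000) : ℝ) * X := by
        rw [sub_eq_neg_add, Real.rpow_add hX0, Real.rpow_one]
      calc K * (X : ℝ) ^ (1 - 1 / 4000 : ℝ) * sX = K * ((X : ℝ) ^ (1 - 1 / 4000 : ℝ) * sX) := by ring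
        _ ≤ K * (90 * (X : ℝ) ^ (1 - 1 / 8000 : ℝ)) := mul_le_mul_of_nonneg_left g1 hK
        _ = (K * 90 * (X : ℝ) ^ (-(1 / 8000) : ℝ)) * X := by rw [e]; ring
        _ ≤ γ * c1 / 16 * X := mul_le_mul_of_nonneg_right g2 hX0.le
    have e9 : γ * c1 / 8 * X / sX = γ * c1 / 16 * X / sX + γ * c1 / 16 * X / sX := by ring
    linarith

end Pool.Agent.Y965.PL
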