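import Pool.Agent.Y965.PL.Fin

/-! Transfer to the sequences `⌊n ^ c⌋`: functions squeezed between transferable functions. -/

set_option autoImplicit false

namespace Pool.Agent.Y965.PL

open Finset Filter Topology Pool.Agent.Y965.PS

/-- the transfer inequality holds for `F` -/
def TS (c K : ℝ) (F : ℤ → ℝ) : Prop := (∀ x, |F x| ≤ 1) ∧ ∀ X : ℕ, 1 ≤ X →
  |∑ n ∈ Icc 1 X, F ⌊(n : ℝ) ^ c⌋ - ∑ m ∈ Icc 1 ⌊(X : ℝ) ^ c⌋₊, F m * ell (1 / c) m| ≤ K * (X : ℝ) ^ (1 - 1 / 4000 : ℝ)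

theorem M_pow {c x : ℝ} (hc : 1 < c) (hγ : 1 - x = 1 / c) (hx1 : x < 1 / 101) {X M : ℕ} (hX : 1 ≤ X)
    (h4 : (M : ℝ) ≤ (X : ℝ) ^ c) : (M : ℝ) ^ (1 - x - 1 / 4000) ≤ (X : ℝ) ^ (1 - 1 / 4000 : ℝ) := by
  have hX1 : (1 : ℝ) ≤ X := by exact_mod_cast hX
  calc (M : ℝ) ^ (1 - x - 1 / 4000) ≤ ((X : ℝ) ^ c) ^ (1 - x - 1 / 4000) :=
        Real.rpow_le_rpow (Nat.cast_nonneg _) h4 (by linarith)
    _ = (X : ℝ) ^ (c * (1 - x - 1 / 4000)) := by rw [← Real.rpow_mul (by positivity)]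
    _ ≤ (X : ℝ) ^ (1 - 1 / 4000 : ℝ) := by
        apply Real.rpow_le_rpow_of_exponent_le hX1
        have e : c * (1 - x - 1 / 4000) = 1 - c / 4000 := by
          rw [hγ]; field_simp
        rw [e]; linarith

theorem params {c : ℝ} (hc : 1 < c) (hc' : c < 101 / 100) : ∃ x : ℝ, 0 < x ∧ x < 1 / 101 ∧ 1 - x = 1 / c := by
  have hc0 : 0 < c := by linarith
  refine ⟨1 - 1 / c, ?_, ?_, by ring⟩
  · have : 1 / c < 1 := by rw [div_lt_one hc0]; exact hc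
    linarith
  · have : 100 / 101 < 1 / c := by rw [div_lt_div_iff₀ (by norm_num) hc0]; linarith
    linarith

/-- the transfer inequality -/
theorem transfer {c : ℝ} (hc : 1 < c) (hc' : c < 101 / 100) : ∃ K : ℝ, 0 ≤ K ∧ ∀ F : ℤ → ℝ, ASync 1 F →
    TS c K F := by
  obtain ⟨x, hx0, hx1, hγ⟩ := params hc hc'
  have hc0 : 0 < c := by linarith
  obtain ⟨K1, hK1, H1⟩ := main_bound (d := 1) (Or.inl rfl) hx0 hx1
  refine ⟨K1, by linarith, ?_⟩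
  intro F hF
  refine ⟨hF.1, fun X hX => ?_⟩
  have hX1 : (1 : ℝ) ≤ X := by exact_mod_cast hX
  set M := ⌊(X : ℝ) ^ c⌋₊ with hM
  have hM1 : 1 ≤ M := by
    apply Nat.le_floor
    push_cast
    exact Real.one_le_rpow hX1 hc0.le
  rw [conv hc.le X F, ← sum_sub_distrib]
  have h2 : ∑ m ∈ Icc 1 M, (F (m : ℤ) * ((⌈((m : ℝ) + 1) ^ (1 / c)⌉ : ℝ) - ⌈(m : ℝ) ^ (1 / c)⌉)
      - F (m : ℤ) * ell (1 / c) m) = ∑ m ∈ Icc 1 M, F (m : ℤ) * ww (1 - x) (1 * m) := by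
    apply sum_congr rfl
    intro m _
    unfold ww ell
    rw [hγ, one_mul]
    ring
  rw [h2]
  exact (H1 M hM1 1 le_rfl (by norm_num) F hF).trans
    (mul_le_mul_of_nonneg_left (M_pow hc hγ hx1 hX (Nat.floor_le (by positivity))) (by linarith))

/-- the transfer inequality for the odd terms -/
theorem transfer_odd {c : ℝ} (hc : 1 < c) (hc' : c < 101 / 100) : ∃ K : ℝ, 0 ≤ K ∧ ∀ F : ℤ → ℝ, ASync 1 F →
    (∀ m : ℕ, 1 ≤ m → F ((2 * m : ℕ) : ℤ) = F m) → TS c K (fun z => if z % 2 = 1 then F z else 0) := by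
  obtain ⟨x, hx0, hx1, hγ⟩ := params hc hc'
  have hc0 : 0 < c := by linarith
  obtain ⟨K1, hK1, H1⟩ := main_bound (d := 1) (Or.inl rfl) hx0 hx1
  refine ⟨2 * K1, by linarith, ?_⟩
  intro F hF hF2
  refine ⟨fun z => ?_, fun X hX => ?_⟩
  · dsimp only
    split_ifs
    · exact hF.1 z
    · simp
  have hX1 : (1 : ℝ) ≤ X := by exact_mod_cast hX
  set M := ⌊(X : ℝ) ^ c⌋₊ with hM
  have hM1 : 1 ≤ M := by
    apply Nat.le_floor
    push_cast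
    exact Real.one_le_rpow hX1 hc0.le
  rw [conv hc.le X (fun z => if z % 2 = 1 then F z else 0), ← sum_sub_distrib]
  have h2 : ∑ m ∈ Icc 1 M, ((fun z : ℤ => if z % 2 = 1 then F z else 0) (m : ℤ) *
      ((⌈((m : ℝ) + 1) ^ (1 / c)⌉ : ℝ) - ⌈(m : ℝ) ^ (1 / c)⌉)
      - (if (m : ℤ) % 2 = 1 then F (m : ℤ) else 0) * ell (1 / c) m) = ∑ m ∈ Icc 1 M, F (m : ℤ) * ww (1 - x) (1 * m)
      - ∑ m ∈ Icc 1 (M / 2), F (m : ℤ) * ww (1 - x) (2 * m) := by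
    have h3 : ∑ m ∈ Icc 1 (M / 2), F (m : ℤ) * ww (1 - x) (2 * m)
        = ∑ m ∈ Icc 1 M, (if m % 2 = 0 then F (m : ℤ) * ww (1 - x) m else 0) := by
      rw [← sum_filter]
      refine sum_bij' (fun m _ => 2 * m) (fun m _ => m / 2) ?_ ?_ ?_ ?_ ?_
      · intro m hm
        rw [mem_Icc] at hm
        rw [mem_filter, mem_Icc]
        omega
      · intro m hm
        rw [mem_filter, mem_Icc] at hm
        rw [mem_Icc]
        omega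
      · intro m _; omega
      · intro m hm
        rw [mem_filter] at hm
        omega
      · intro m hm
        rw [mem_Icc] at hm
        rw [hF2 m hm.1]
    rw [h3, ← sum_sub_distrib]
    apply sum_congr rfl
    intro m _
    dsimp only
    unfold ww ell
    rw [hγ, one_mul]
    rcases Nat.mod_two_eq_zero_or_one m with h | h
    · rw [if_neg (show ¬ (m : ℤ) % 2 = 1 by omega), if_pos h]; ring
    · rw [if_pos (show (m : ℤ) % 2 = 1 by omega), if_neg (show ¬ m % 2 = 0 by omega)]; ring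
  rw [h2]
  have k1 := (H1 M hM1 1 le_rfl (by norm_num) F hF).trans
    (mul_le_mul_of_nonneg_left (M_pow hc hγ hx1 hX (Nat.floor_le (by positivity))) (by linarith))
  have k2 : |∑ m ∈ Icc 1 (M / 2), F (m : ℤ) * ww (1 - x) (2 * m)| ≤ K1 * (X : ℝ) ^ (1 - 1 / 4000 : ℝ) := by
    rcases Nat.eq_zero_or_pos (M / 2) with h0 | h0
    · rw [h0]
      simp only [zero_lt_one, Icc_eq_empty_of_lt, sum_empty, abs_zero]
      positivity
    · refine (H1 (M / 2) h0 2 (by norm_num) le_rfl F hF).trans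
        (mul_le_mul_of_nonneg_left (M_pow hc hγ hx1 hX ?_) (by linarith))
      have h5 : ((M / 2 : ℕ) : ℝ) ≤ M := by exact_mod_cast Nat.div_le_self M 2
      exact h5.trans (Nat.floor_le (by positivity))
  refine (abs_sub _ _).trans ?_
  linarith

/-- means -/
def Mn (u : ℕ → ℝ) (d : ℝ) : Prop := Tendsto (fun N : ℕ => (∑ m ∈ Icc 1 N, u m) / N) atTop (𝓝 d)

theorem Mn.unif {u : ℕ → ℝ} {d : ℝ} (h : Mn u d) {ε : ℝ} (hε : 0 < ε) : ∃ C : ℝ, 0 ≤ C ∧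
    ∀ m : ℕ, |∑ k ∈ Icc 1 m, u k - d * m| ≤ ε * m + C := by
  obtain ⟨N0, hN0⟩ := (Metric.tendsto_atTop.1 h) ε hε
  refine ⟨∑ m ∈ range N0, |∑ k ∈ Icc 1 m, u k - d * m|, sum_nonneg fun _ _ => abs_nonneg _, fun m => ?_⟩
  rcases lt_or_ge m N0 with hm | hm
  · have h1 := single_le_sum (f := fun m => |∑ k ∈ Icc 1 m, u k - d * m|) (fun i _ => abs_nonneg _) (mem_range.2 hm)
    have h2 : 0 ≤ ε * (m : ℝ) := by positivity
    linarith
  · have h1 := hN0 m hm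
    have h3 : 0 ≤ ∑ m ∈ range N0, |∑ k ∈ Icc 1 m, u k - d * m| := sum_nonneg fun _ _ => abs_nonneg _
    rcases Nat.eq_zero_or_pos m with h0 | h0
    · subst h0
      simp
      exact h3
    · have hm0 : (0 : ℝ) < m := by exact_mod_cast h0
      rw [Real.dist_eq] at h1
      have e : ∑ k ∈ Icc 1 m, u k - d * m = ((∑ k ∈ Icc 1 m, u k) / m - d) * m := by field_simp
      rw [e, abs_mul, abs_of_pos hm0]
      nlinarith

theorem Mn.add {u v : ℕ → ℝ} {d e : ℝ} (hu : Mn u d) (hv : Mn v e) : Mn (fun m => u m + v m) (d + e) := by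
  unfold Mn at *
  refine (hu.add hv).congr fun N => ?_
  rw [sum_add_distrib]; ring

theorem Mn.sub {u v : ℕ → ℝ} {d e : ℝ} (hu : Mn u d) (hv : Mn v e) : Mn (fun m => u m - v m) (d - e) := by
  unfold Mn at *
  refine (hu.sub hv).congr fun N => ?_
  rw [sum_sub_distrib]; ring

theorem Mn.mul {u : ℕ → ℝ} {d : ℝ} (hu : Mn u d) (a : ℝ) : Mn (fun m => a * u m) (a * d) := by
  unfold Mn at *
  refine (hu.const_mul a).congr fun N => ?_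
  rw [← mul_sum]; ring

theorem Mn_const (a : ℝ) : Mn (fun _ => a) a := by
  unfold Mn
  refine tendsto_const_nhds.congr' ?_
  filter_upwards [eventually_ge_atTop 1] with N hN
  have : (N : ℝ) ≠ 0 := by positivity
  rw [sum_const, Nat.card_Icc, Nat.add_sub_cancel, nsmul_eq_mul]
  field_simp

/-- the beginning of the sequence -/
theorem few {c : ℝ} (hc : 1 < c) (X a : ℕ) :
    (((Icc 1 X).filter fun n : ℕ => ⌊(n : ℝ) ^ c⌋₊ ≤ a).card : ℝ) ≤ ((a : ℝ) + 1) ^ (1 / c) := by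
  have hc0 : 0 < c := by linarith
  set b := ⌊((a : ℝ) + 1) ^ (1 / c)⌋₊ with hb
  have h1 : ((Icc 1 X).filter fun n : ℕ => ⌊(n : ℝ) ^ c⌋₊ ≤ a) ⊆ Icc 1 b := by
    intro n hn
    rw [mem_filter, mem_Icc] at hn
    rw [mem_Icc]
    refine ⟨hn.1.1, Nat.le_floor ?_⟩
    have h2 : (n : ℝ) ^ c < a + 1 := by
      have := Nat.lt_floor_add_one ((n : ℝ) ^ c)
      have h3 : (⌊(n : ℝ) ^ c⌋₊ : ℝ) ≤ a := by exact_mod_cast hn.2
      linarith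
    have h3 : ((n : ℝ) ^ c) ^ (1 / c) ≤ ((a : ℝ) + 1) ^ (1 / c) :=
      Real.rpow_le_rpow (by positivity) h2.le (by positivity)
    rwa [← Real.rpow_mul (Nat.cast_nonneg _), mul_one_div, div_self hc0.ne', Real.rpow_one] at h3
  have h2 := card_le_card h1
  rw [Nat.card_Icc, Nat.add_sub_cancel] at h2
  have h3 : (((Icc 1 X).filter fun n : ℕ => ⌊(n : ℝ) ^ c⌋₊ ≤ a).card : ℝ) ≤ b := by exact_mod_cast h2
  exact h3.trans (Nat.floor_le (by positivity))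

/-- one half of the squeezing argument -/
theorem half {c K : ℝ} (hc : 1 < c) (hK : 0 ≤ K) {ε : ℝ} (hε0 : 0 < ε) {u : ℕ → ℝ} {d : ℝ}
    (hu1 : ∀ m, |u m| ≤ 2) (hu : Mn u d) (hd : |d| ≤ 2) :
    ∃ D : ℝ, 0 ≤ D ∧ ∀ (X a : ℕ), 1 ≤ X → ∀ (w : ℕ → ℝ) (F : ℤ → ℝ), (∀ m, |w m| ≤ 1) → TS c K F →
      (∀ m : ℕ, a < m → m ≤ ⌊(X : ℝ) ^ c⌋₊ → w m ≤ F m ∧ F m ≤ u m) →
      ∑ n ∈ Icc 1 X, w ⌊(n : ℝ) ^ c⌋₊ ≤ d * X + ε * X + 6 * ((a : ℝ) + 1) ^ (1 / c) + D + K * (X : ℝ) ^ (1 - 1 / 4000 : ℝ) := by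
  have hc0 : 0 < c := by linarith
  set γ : ℝ := 1 / c with hγ
  have hγ0 : 0 < γ := by positivity
  have hγ1 : γ < 1 := by rw [hγ, div_lt_one hc0]; exact hc
  obtain ⟨C, hC, hu2⟩ := hu.unif hε0
  refine ⟨C + ε + 2, by positivity, fun X a hX w F hw hF hsq => ?_⟩
  have hXR : (1 : ℝ) ≤ X := by exact_mod_cast hX
  have hXpos : (0 : ℝ) < X := by linarith
  set M := ⌊(X : ℝ) ^ c⌋₊ with hM
  have hcγ : ∀ y : ℝ, 0 ≤ y → (y ^ c) ^ γ = y := by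
    intro y hy
    rw [← Real.rpow_mul hy, hγ, mul_one_div, div_self hc0.ne', Real.rpow_one]
  have h4 : (X : ℝ) ≤ ((M : ℝ) + 1) ^ γ := by
    rw [← hcγ X hXpos.le]
    exact Real.rpow_le_rpow (by positivity) (Nat.lt_floor_add_one _).le hγ0.le
  have h5 : ((M : ℝ) + 1) ^ γ ≤ X + 1 := by
    have h6 : (M : ℝ) ≤ (X : ℝ) ^ c := Nat.floor_le (by positivity)
    have h7 := pow_gap hc.le hXpos.le
    rw [← hcγ (X + 1) (by positivity)]
    exact Real.rpow_le_rpow (by positivity) (by linarith) hγ0.le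
  -- step 1
  have s1 : ∑ n ∈ Icc 1 X, w ⌊(n : ℝ) ^ c⌋₊ ≤ ∑ n ∈ Icc 1 X, F ⌊(n : ℝ) ^ c⌋ + 2 * ((a : ℝ) + 1) ^ γ := by
    have h1 : ∀ n ∈ Icc 1 X, w ⌊(n : ℝ) ^ c⌋₊ ≤ F ⌊(n : ℝ) ^ c⌋ + (if ⌊(n : ℝ) ^ c⌋₊ ≤ a then 2 else 0) := by
      intro n hn
      rw [mem_Icc] at hn
      have hn0 : (0 : ℝ) ≤ (n : ℝ) ^ c := by positivity
      have e : (⌊(n : ℝ) ^ c⌋ : ℤ) = ((⌊(n : ℝ) ^ c⌋₊ : ℕ) : ℤ) := (Int.natCast_floor_eq_floor hn0).symm
      rw [e]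
      split_ifs with h
      · have g1 := (abs_le.1 (hw ⌊(n : ℝ) ^ c⌋₊)).2
        have g2 := (abs_le.1 (hF.1 ((⌊(n : ℝ) ^ c⌋₊ : ℕ) : ℤ))).1
        linarith
      · rw [add_zero]
        refine (hsq _ (not_le.1 h) ?_).1
        rw [hM]
        apply Nat.floor_le_floor
        exact Real.rpow_le_rpow (by positivity) (by exact_mod_cast hn.2) hc0.le
    refine (sum_le_sum h1).trans ?_
    rw [sum_add_distrib, ← sum_filter, sum_const, nsmul_eq_mul]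
    have h2 := few hc X a
    rw [← hγ] at h2
    linarith
  -- step 2
  have s2 := (abs_le.1 (hF.2 X hX)).2
  rw [← hM, ← hγ] at s2
  -- step 3
  have s3 : ∑ m ∈ Icc 1 M, F m * ell γ m ≤ ∑ m ∈ Icc 1 M, u m * ell γ m + 3 * ((a : ℝ) + 1) ^ γ := by
    have h1 : ∀ m ∈ Icc 1 M, F (m : ℤ) * ell γ m ≤ u m * ell γ m + (if m ≤ a then 3 * ell γ m else 0) := by
      intro m hm
      rw [mem_Icc] at hm
      have hl := ell_nonneg hγ0 m
      split_ifs with h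
      · have g1 := (abs_le.1 (hu1 m)).1
        have g2 := (abs_le.1 (hF.1 (m : ℤ))).2
        nlinarith
      · rw [add_zero]
        exact mul_le_mul_of_nonneg_right (hsq m (not_le.1 h) hm.2).2 hl
    refine (sum_le_sum h1).trans ?_
    rw [sum_add_distrib, ← sum_filter]
    have h2 : ∑ m ∈ (Icc 1 M).filter (fun m => m ≤ a), 3 * ell γ m ≤ ∑ m ∈ Icc 1 a, 3 * ell γ m := by
      apply sum_le_sum_of_subset_of_nonneg
      · intro m hm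
        rw [mem_filter, mem_Icc] at hm
        rw [mem_Icc]; omega
      · intro m _ _
        have := ell_nonneg hγ0 m
        linarith
    have h3 : ∑ m ∈ Icc 1 a, 3 * ell γ m = 3 * (((a : ℝ) + 1) ^ γ - 1) := by rw [← mul_sum, ell_sum]
    linarith
  -- step 4
  have s4 := (abs_le.1 (abel hγ0 hγ1 hε0.le hC hu2 M)).2
  have s5 : d * (((M : ℝ) + 1) ^ γ - 1) ≤ d * X + 2 := by
    have h1 : |((M : ℝ) + 1) ^ γ - 1 - X| ≤ 1 := by rw [abs_le]; constructor <;> linarith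
    have h2 : d * (((M : ℝ) + 1) ^ γ - 1 - X) ≤ 2 := by
      refine (le_abs_self _).trans ?_
      rw [abs_mul]
      nlinarith [abs_nonneg d, abs_nonneg (((M : ℝ) + 1) ^ γ - 1 - X)]
    linarith
  have s6 : ε * ((M : ℝ) + 1) ^ γ ≤ ε * (X + 1) := mul_le_mul_of_nonneg_left h5 hε0.le
  have s7 : 0 ≤ ((a : ℝ) + 1) ^ γ := by positivity
  linarith

theorem small_pow (K : ℝ) {ε : ℝ} (hε : 0 < ε) : ∀ᶠ X : ℕ in atTop, K * (X : ℝ) ^ (1 - 1 / 4000 : ℝ) ≤ ε * X := by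
  have hlim : Tendsto (fun X : ℕ => K * (X : ℝ) ^ (-(1 / 4000) : ℝ)) atTop (𝓝 0) := by
    have h1 := (tendsto_rpow_neg_atTop (show (0 : ℝ) < 1 / 4000 by norm_num)).comp tendsto_natCast_atTop_atTop
    have h2 := h1.const_mul K
    rw [mul_zero] at h2
    exact h2
  filter_upwards [hlim.eventually (gt_mem_nhds hε), eventually_ge_atTop 1] with X h1 h2
  have hXpos : (0 : ℝ) < X := by exact_mod_cast h2
  have e : (X : ℝ) ^ (1 - 1 / 4000 : ℝ) = (X : ℝ) ^ (-(1 / 4000) : ℝ) * X := by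
    rw [sub_eq_neg_add, Real.rpow_add hXpos, Real.rpow_one]
  rw [e, ← mul_assoc]
  exact mul_le_mul_of_nonneg_right h1.le hXpos.le

theorem eps_pow {c : ℝ} (hc : 1 < c) (hc' : c < 101 / 100) {ε : ℝ} (hε0 : 0 < ε) (hε1 : ε ≤ 1) (X : ℕ) (hX : 1 ≤ X) :
    ((⌊ε ^ 2 * (⌊(X : ℝ) ^ c⌋₊ : ℝ)⌋₊ : ℝ) + 1) ^ (1 / c) ≤ ε * X + 1 := by
  have hc0 : 0 < c := by linarith
  set γ : ℝ := 1 / c with hγ
  have hγ0 : 0 < γ := by positivity
  have hγ1 : γ ≤ 1 := by rw [hγ, div_le_one hc0]; exact hc.le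
  have hγ2 : 1 / 2 ≤ γ := by rw [hγ]; apply one_div_le_one_div_of_le hc0; linarith
  have hXR : (1 : ℝ) ≤ X := by exact_mod_cast hX
  have h1 : (⌊ε ^ 2 * (⌊(X : ℝ) ^ c⌋₊ : ℝ)⌋₊ : ℝ) ≤ ε ^ 2 * (X : ℝ) ^ c :=
    (Nat.floor_le (by positivity)).trans (mul_le_mul_of_nonneg_left (Nat.floor_le (by positivity)) (by positivity))
  have h2 : ((⌊ε ^ 2 * (⌊(X : ℝ) ^ c⌋₊ : ℝ)⌋₊ : ℝ) + 1) ^ γ ≤ (ε ^ 2 * (X : ℝ) ^ c + 1) ^ γ :=
    Real.rpow_le_rpow (by positivity) (by linarith) hγ0.le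
  have h3 : (ε ^ 2 * (X : ℝ) ^ c + 1) ^ γ ≤ (ε ^ 2 * (X : ℝ) ^ c) ^ γ + 1 ^ γ :=
    Real.rpow_add_le_add_rpow (by positivity) zero_le_one hγ0.le hγ1
  have h4 : (ε ^ 2 * (X : ℝ) ^ c) ^ γ = (ε ^ 2) ^ γ * X := by
    rw [Real.mul_rpow (by positivity) (by positivity)]
    congr 1
    rw [← Real.rpow_mul (by positivity), hγ, mul_one_div, div_self hc0.ne', Real.rpow_one]
  have h5 : (ε ^ 2) ^ γ ≤ ε := by
    calc (ε ^ 2) ^ γ ≤ (ε ^ 2) ^ (1 / 2 : ℝ) := Real.rpow_le_rpow_of_exponent_ge (by positivity) (by nlinarith) hγ2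
      _ = ε := by rw [← Real.sqrt_eq_rpow, Real.sqrt_sq hε0.le]
  rw [h4, Real.one_rpow] at h3
  have h6 : (ε ^ 2) ^ γ * X ≤ ε * X := mul_le_mul_of_nonneg_right h5 (by linarith)
  linarith

/-- THE SQUEEZING ARGUMENT -/
theorem squeeze {c K : ℝ} (hc : 1 < c) (hc' : c < 101 / 100) (hK : 0 ≤ K) {u v : ℕ → ℝ} {d e : ℝ}
    (hu1 : ∀ m, |u m| ≤ 1) (hv1 : ∀ m, |v m| ≤ 1) (hu : Mn u d) (hv : Mn v e) (hd : |d| ≤ 1) (he : |e| ≤ 1)
    {ε : ℝ} (hε : 0 < ε) (hε1 : ε ≤ 1) :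
    ∀ᶠ X : ℕ in atTop, ∀ (w : ℕ → ℝ) (F G : ℤ → ℝ), (∀ m, |w m| ≤ 1) → TS c K F → TS c K G →
      (∀ m : ℕ, (ε / 12) ^ 2 * (⌊(X : ℝ) ^ c⌋₊ : ℝ) < m → m ≤ ⌊(X : ℝ) ^ c⌋₊ →
        F m ≤ w m ∧ w m ≤ G m ∧ u m - v m ≤ F m ∧ G m ≤ u m + v m) →
      |∑ n ∈ Icc 1 X, w ⌊(n : ℝ) ^ c⌋₊ - d * X| ≤ (e + ε) * X := by
  have hε8 : 0 < ε / 12 := by positivity
  obtain ⟨D1, hD1, H1⟩ := half hc hK hε8 (u := fun m => u m + v m) (d := d + e)
    (fun m => (abs_add_le _ _).trans (by linarith [hu1 m, hv1 m])) (hu.add hv) ((abs_add_le _ _).trans (by linarith))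
  obtain ⟨D2, hD2, H2⟩ := half hc hK hε8 (u := fun m => (-1) * (u m - v m)) (d := (-1) * (d - e))
    (fun m => by
      rw [abs_mul, abs_neg, abs_one, one_mul]
      exact (abs_sub _ _).trans (by linarith [hu1 m, hv1 m])) ((hu.sub hv).mul (-1))
    (by
      rw [abs_mul, abs_neg, abs_one, one_mul]
      exact (abs_sub _ _).trans (by linarith))
  filter_upwards [small_pow K hε8, eventually_ge_atTop 1,
    tendsto_natCast_atTop_atTop.eventually_ge_atTop ((D1 + D2 + 6) / (ε / 12))] with X h1 h2 h3 w F G hw hF hG h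
  have hXR : (1 : ℝ) ≤ X := by exact_mod_cast h2
  rw [div_le_iff₀ hε8] at h3
  set a := ⌊(ε / 12) ^ 2 * (⌊(X : ℝ) ^ c⌋₊ : ℝ)⌋₊ with ha
  have h4 := eps_pow hc hc' hε8 (by linarith) X h2
  rw [← ha] at h4
  have hlt : ∀ m : ℕ, a < m → (ε / 12) ^ 2 * (⌊(X : ℝ) ^ c⌋₊ : ℝ) < m := fun m hm =>
    (Nat.floor_lt (by positivity)).1 hm
  have g1 := H1 X a h2 w G hw hG fun m hm1 hm2 => by
    obtain ⟨_, i2, _, i4⟩ := h m (hlt m hm1) hm2
    exact ⟨i2, i4⟩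
  have hF' : TS c K (fun z => (-1) * F z) := by
    refine ⟨fun z => by rw [abs_mul, abs_neg, abs_one, one_mul]; exact hF.1 z, fun Y hY => ?_⟩
    have := hF.2 Y hY
    have e1 : ∑ n ∈ Icc 1 Y, (-1) * F ⌊(n : ℝ) ^ c⌋ - ∑ m ∈ Icc 1 ⌊(Y : ℝ) ^ c⌋₊, (-1) * F m * ell (1 / c) m
        = -(∑ n ∈ Icc 1 Y, F ⌊(n : ℝ) ^ c⌋ - ∑ m ∈ Icc 1 ⌊(Y : ℝ) ^ c⌋₊, F m * ell (1 / c) m) := by
      simp only [mul_assoc]
      rw [← mul_sum, ← mul_sum]; ring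
    rw [e1, abs_neg]; exact this
  have g2 := H2 X a h2 (fun m => (-1) * w m) (fun z => (-1) * F z)
    (fun m => by rw [abs_mul, abs_neg, abs_one, one_mul]; exact hw m) hF' fun m hm1 hm2 => by
    obtain ⟨i1, _, i3, _⟩ := h m (hlt m hm1) hm2
    constructor <;> linarith
  rw [← mul_sum] at g2
  rw [abs_le]
  constructor <;> nlinarith

end Pool.Agent.Y965.PL
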